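import Pool.Agent.Helper97.PR.Desc

/-!
# Parity-switched recurrence (MP_2a27b1_nt): almost all coprime pairs come down
-/

set_option autoImplicit false

namespace Pool.Agent.Helper97.PR

/-- the pairs of coprime integers `(x_0, x_1)` with `|x_0|, |x_1| ≤ R` whose solution never has two consecutive terms
of absolute value at most `max (|x_0|, |x_1|) ^ θ` -/
def stayLarge (σ : ℤ) (θ : ℝ) (R : ℕ) : Set (ℤ × ℤ) :=
  {p | |p.1| ≤ R ∧ |p.2| ≤ R ∧ Int.gcd p.1 p.2 = 1 ∧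
    ∃ x : ℕ → ℤ, IsSol σ x ∧ x 0 = p.1 ∧ x 1 = p.2 ∧
      ∀ n, ((max |x 0| |x 1| : ℤ) : ℝ) ^ θ < ((max |x n| |x (n + 1)| : ℤ) : ℝ)}

theorem Fs_T {σ : ℤ} (hσ : σ = 1 ∨ σ = -1) {u : ℤ × ℤ} (h : Od u) : ∃ j, Fs σ u = (T σ)^[j] u := by
  obtain ⟨a, b⟩ := u
  obtain ⟨h1, h2⟩ := h
  simp only at h1 h2
  have e1 : T σ (a, b) = (b, (b - a) / 2) := by
    simp only [T, Prod.mk.injEq, true_and]
    rw [if_pos (by omega)]
  by_cases h3 : (b - a) / 2 % 2 = 1
  · refine ⟨1, ?_⟩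
    rw [Function.iterate_one, e1]
    simp only [Fs]
    rw [if_pos h3]
  · refine ⟨3, ?_⟩
    have e2 : T σ (b, (b - a) / 2) = ((b - a) / 2, σ * ((b - a) / 2 + b)) := by
      simp only [T, Prod.mk.injEq, true_and]
      rw [if_neg (by omega)]
    show Fs σ (a, b) = T σ (T σ (T σ (a, b)))
    rw [e1, e2]
    rcases hσ with hσ | hσ
    · subst hσ
      simp only [Fs, T]
      rw [if_neg h3, if_pos trivial, if_neg (by omega), Prod.mk.injEq]
      constructor <;> ring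
    · subst hσ
      simp only [Fs, T]
      rw [if_neg h3, if_neg (by norm_num), if_neg (by omega), Prod.mk.injEq]
      constructor <;> ring

theorem Fs_iter_T {σ : ℤ} (hσ : σ = 1 ∨ σ = -1) : ∀ (k : ℕ) (u : ℤ × ℤ), Od u →
    ∃ j, (Fs σ)^[k] u = (T σ)^[j] u := by
  intro k
  induction k with
  | zero => intro u _; exact ⟨0, rfl⟩
  | succ k ih =>
    intro u hu
    obtain ⟨j, hj⟩ := Fs_T hσ hu
    obtain ⟨i, hi⟩ := ih (Fs σ u) (Fs_od hu)
    refine ⟨i + j, ?_⟩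
    rw [Function.iterate_succ_apply, hi, hj, Function.iterate_add_apply]

open Classical in
/-- exceptional pairs with a fixed threshold -/
noncomputable def Xc (σ : ℤ) (τ : ℝ) (R : ℕ) : Finset (ℤ × ℤ) :=
  (box R).filter fun u => IsCoprime u.1 u.2 ∧ ∀ k, τ < ((mx ((T σ)^[k] u) : ℤ) : ℝ)

open Classical in
theorem mem_Xc {σ : ℤ} {τ : ℝ} {R : ℕ} {u : ℤ × ℤ} : u ∈ Xc σ τ R ↔
    mx u ≤ R ∧ IsCoprime u.1 u.2 ∧ ∀ k, τ < ((mx ((T σ)^[k] u) : ℤ) : ℝ) := by
  rw [Xc, Finset.mem_filter, mem_box, mx, max_le_iff]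

theorem T_mixed {σ : ℤ} {a b : ℤ} (h : (b + a) % 2 = 1) : T σ (a, b) = (b, σ * (b + a)) := by
  simp only [T, Prod.mk.injEq, true_and]
  rw [if_neg (by omega)]

theorem coprime_step {σ : ℤ} (hσ : σ = 1 ∨ σ = -1) {a b : ℤ} (h : IsCoprime a b) :
    IsCoprime b (σ * (b + a)) := by
  obtain ⟨x, y, hxy⟩ := h
  rcases hσ with hσ | hσ
  · exact ⟨y - x, x, by rw [hσ]; linear_combination hxy⟩
  · exact ⟨y - x, -x, by rw [hσ]; linear_combination hxy⟩

theorem abs_step {σ : ℤ} (hσ : σ = 1 ∨ σ = -1) {a b A B : ℤ} (ha : |a| ≤ A) (hb : |b| ≤ B) :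
    |σ * (b + a)| ≤ B + A := by
  have h1 : |σ| = 1 := by rcases hσ with h | h <;> rw [h] <;> rfl
  rw [abs_mul, h1, one_mul]
  exact (abs_add_le _ _).trans (add_le_add hb ha)

section
variable {t : Tr} {p : PmF}

/-- count of all exceptional coprime pairs, fixed threshold -/
theorem Xc_bound (T' : TabF t p) {σ : ℤ} (hσ : σ = 1 ∨ σ = -1) (hB : p.B = mB σ) {θ : ℝ}
    (hθ : θ ≤ 1) (hκ : (p.kN : ℝ) / 8000000 * (2 ^ (1 - θ)) ^ 2 < 1) :
    ∃ β : ℝ, 0 ≤ β ∧ β < 1 ∧ ∀ c : ℝ, 0 < c → ∃ C : ℝ, 0 ≤ C ∧ ∀ R : ℕ, 1 ≤ R →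
      ((Xc σ (c * (R : ℝ) ^ θ) R).card : ℝ) ≤ C * (R : ℝ) ^ (1 + β) := by
  classical
  obtain ⟨β, hβ0, hβ1, hodd⟩ := odd_bound T' hB hθ hκ
  refine ⟨β, hβ0, hβ1, fun c hc => ?_⟩
  obtain ⟨C1, hC1, h1⟩ := hodd c hc
  obtain ⟨C2, hC2, h2⟩ := hodd (c / 3 ^ θ) (by positivity)
  refine ⟨C1 + 2 * (C2 * 3 ^ (1 + β)), by positivity, fun R hR => ?_⟩
  have hRp : (0 : ℝ) < R := by exact_mod_cast hR
  have h3R : 1 ≤ 3 * R := by omega
  set τ : ℝ := c * (R : ℝ) ^ θ with hτ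
  have hτ3 : c / 3 ^ θ * ((3 * R : ℕ) : ℝ) ^ θ = τ := by
    push_cast
    rw [Real.mul_rpow (by norm_num) hRp.le, hτ]
    have : (3 : ℝ) ^ θ ≠ 0 := by positivity
    field_simp
  set X := Xc σ τ R with hX
  set X0 := X.filter fun u => Od u with hX0
  set X1 := X.filter fun u => u.1 % 2 = 0 ∧ u.2 % 2 = 1 with hX1
  set X2 := X.filter fun u => u.1 % 2 = 1 ∧ u.2 % 2 = 0 with hX2
  -- decomposition
  have hdec : X ⊆ X0 ∪ (X1 ∪ X2) := by
    intro u hu
    rw [Finset.mem_union, Finset.mem_union, hX0, hX1, hX2, Finset.mem_filter, Finset.mem_filter,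
      Finset.mem_filter]
    obtain ⟨-, ⟨x, y, hxy⟩, -⟩ := mem_Xc.1 hu
    by_cases e1 : u.1 % 2 = 1
    · by_cases e2 : u.2 % 2 = 1
      · exact Or.inl ⟨hu, e1, e2⟩
      · exact Or.inr (Or.inr ⟨hu, e1, by omega⟩)
    · by_cases e2 : u.2 % 2 = 1
      · exact Or.inr (Or.inl ⟨hu, by omega, e2⟩)
      · exfalso
        have e3 : u.1 = 2 * (u.1 / 2) := by omega
        have e4 : u.2 = 2 * (u.2 / 2) := by omega
        have e5 : 2 * (x * (u.1 / 2) + y * (u.2 / 2)) = 1 := by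
          rw [e3, e4] at hxy
          linear_combination hxy
        omega
  have hmono : ∀ u ∈ X, ∀ j k, τ < ((mx ((T σ)^[k] ((T σ)^[j] u)) : ℤ) : ℝ) := by
    intro u hu j k
    rw [← Function.iterate_add_apply]
    exact (mem_Xc.1 hu).2.2 _
  -- odd pairs
  have hcard0 : (X0.card : ℝ) ≤ C1 * (R : ℝ) ^ (1 + β) := by
    refine h1 R hR X0 ?_ ?_
    · intro u hu
      rw [hX0, Finset.mem_filter] at hu
      obtain ⟨hu1, hu2⟩ := hu
      obtain ⟨e1, e2, -⟩ := mem_Xc.1 hu1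
      exact mem_Sf.2 ⟨e1, hu2, e2⟩
    · intro u hu k
      rw [hX0, Finset.mem_filter] at hu
      obtain ⟨j, hj⟩ := Fs_iter_T hσ k u hu.2
      rw [hj]
      exact (mem_Xc.1 hu.1).2.2 j
  -- general argument for the images
  have himg : ∀ (Y : Finset (ℤ × ℤ)) (j : ℕ), Y ⊆ X → (∀ u ∈ Y, Od ((T σ)^[j] u) ∧
      IsCoprime ((T σ)^[j] u).1 ((T σ)^[j] u).2 ∧ mx ((T σ)^[j] u) ≤ ((3 * R : ℕ) : ℤ)) →
      (∀ u ∈ Y, ∀ v ∈ Y, (T σ)^[j] u = (T σ)^[j] v → u = v) →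
      (Y.card : ℝ) ≤ C2 * 3 ^ (1 + β) * (R : ℝ) ^ (1 + β) := by
    intro Y j hY hod hinj
    have e1 : (Y.image (T σ)^[j]).card = Y.card := by
      refine Finset.card_image_of_injOn ?_
      intro u hu v hv huv
      exact hinj u hu v hv huv
    have e2 := h2 (3 * R) h3R (Y.image (T σ)^[j]) ?_ ?_
    · rw [e1] at e2
      refine e2.trans (le_of_eq ?_)
      push_cast
      rw [Real.mul_rpow (by norm_num) hRp.le]
      ring
    · intro w hw
      rw [Finset.mem_image] at hw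
      obtain ⟨u, hu, rfl⟩ := hw
      obtain ⟨o1, o2, o3⟩ := hod u hu
      exact mem_Sf.2 ⟨o3, o1, o2⟩
    · intro w hw k
      rw [Finset.mem_image] at hw
      obtain ⟨u, hu, rfl⟩ := hw
      rw [hτ3]
      obtain ⟨i, hi⟩ := Fs_iter_T hσ k ((T σ)^[j] u) (hod u hu).1
      rw [hi]
      exact hmono u (hY hu) j i
  have hσσ : σ * σ = 1 := by rcases hσ with h | h <;> rw [h] <;> rfl
  have hσ2 : ∀ z : ℤ, (σ * z) % 2 = z % 2 := by
    intro z
    rcases hσ with h | h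
    · rw [h, one_mul]
    · rw [h]; omega
  have hcard1 : (X1.card : ℝ) ≤ C2 * 3 ^ (1 + β) * (R : ℝ) ^ (1 + β) := by
    refine himg X1 1 (Finset.filter_subset _ _) ?_ ?_
    · rintro ⟨a, b⟩ hu
      rw [hX1, Finset.mem_filter] at hu
      obtain ⟨hu1, hu2, hu3⟩ := hu
      obtain ⟨e1, e2, -⟩ := mem_Xc.1 hu1
      simp only at hu2 hu3 e2
      have ha : |a| ≤ (R : ℤ) := (le_max_left _ _).trans e1
      have hb : |b| ≤ (R : ℤ) := (le_max_right _ _).trans e1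
      rw [Function.iterate_one, T_mixed (by omega)]
      refine ⟨⟨hu3, ?_⟩, coprime_step hσ e2, ?_⟩
      · show (σ * (b + a)) % 2 = 1
        rw [hσ2]; omega
      · rw [mx, max_le_iff]
        have := abs_step hσ ha hb
        push_cast
        constructor
        · show |b| ≤ 3 * (R : ℤ)
          linarith [abs_nonneg b]
        · show |σ * (b + a)| ≤ 3 * (R : ℤ)
          linarith [abs_nonneg b]
    · rintro ⟨a, b⟩ hu ⟨a', b'⟩ hv huv
      rw [hX1, Finset.mem_filter] at hu hv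
      obtain ⟨-, hu2, hu3⟩ := hu
      obtain ⟨-, hv2, hv3⟩ := hv
      simp only at hu2 hu3 hv2 hv3
      rw [Function.iterate_one, T_mixed (by omega), T_mixed (by omega), Prod.mk.injEq] at huv
      obtain ⟨i1, i2⟩ := huv
      subst i1
      have i3 : σ * (σ * (b + a)) = σ * (σ * (b + a')) := by rw [i2]
      rw [← mul_assoc, ← mul_assoc, hσσ, one_mul, one_mul] at i3
      rw [Prod.mk.injEq]
      omega
  have hcard2 : (X2.card : ℝ) ≤ C2 * 3 ^ (1 + β) * (R : ℝ) ^ (1 + β) := by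
    have hT2 : ∀ a b : ℤ, a % 2 = 1 → b % 2 = 0 → (T σ)^[2] (a, b) =
        (σ * (b + a), σ * (σ * (b + a) + b)) := by
      intro a b ha hb
      show T σ (T σ (a, b)) = _
      have h3 := hσ2 (b + a)
      rw [T_mixed (σ := σ) (a := a) (b := b) (by omega),
        T_mixed (σ := σ) (a := b) (b := σ * (b + a)) (by omega)]
    refine himg X2 2 (Finset.filter_subset _ _) ?_ ?_
    · rintro ⟨a, b⟩ hu
      rw [hX2, Finset.mem_filter] at hu
      obtain ⟨hu1, hu2, hu3⟩ := hu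
      obtain ⟨e1, e2, -⟩ := mem_Xc.1 hu1
      simp only at hu2 hu3 e2
      have ha : |a| ≤ (R : ℤ) := (le_max_left _ _).trans e1
      have hb : |b| ≤ (R : ℤ) := (le_max_right _ _).trans e1
      have h3 := hσ2 (b + a)
      rw [hT2 a b hu2 hu3]
      refine ⟨⟨?_, ?_⟩, ?_, ?_⟩
      · show (σ * (b + a)) % 2 = 1
        omega
      · show (σ * (σ * (b + a) + b)) % 2 = 1
        rw [hσ2]; omega
      · exact coprime_step hσ (coprime_step hσ e2)
      · rw [mx, max_le_iff]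
        have h4 := abs_step hσ ha hb
        have h5 := abs_step hσ hb h4
        push_cast
        constructor
        · show |σ * (b + a)| ≤ 3 * (R : ℤ)
          linarith [abs_nonneg b]
        · show |σ * (σ * (b + a) + b)| ≤ 3 * (R : ℤ)
          linarith
    · rintro ⟨a, b⟩ hu ⟨a', b'⟩ hv huv
      rw [hX2, Finset.mem_filter] at hu hv
      obtain ⟨-, hu2, hu3⟩ := hu
      obtain ⟨-, hv2, hv3⟩ := hv
      simp only at hu2 hu3 hv2 hv3
      rw [hT2 a b hu2 hu3, hT2 a' b' hv2 hv3, Prod.mk.injEq] at huv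
      obtain ⟨i1, i2⟩ := huv
      have i3 : σ * (σ * (σ * (b + a) + b)) = σ * (σ * (σ * (b' + a') + b')) := by rw [i2]
      rw [← mul_assoc, ← mul_assoc, hσσ, one_mul, one_mul, i1] at i3
      have i4 : σ * (σ * (b + a)) = σ * (σ * (b' + a')) := by rw [i1]
      rw [← mul_assoc, ← mul_assoc, hσσ, one_mul, one_mul] at i4
      rw [Prod.mk.injEq]
      omega
  have hfin : (X.card : ℝ) ≤ X0.card + (X1.card + X2.card) := by
    have h3 := Finset.card_le_card hdec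
    have h4 := Finset.card_union_le X0 (X1 ∪ X2)
    have h5 := Finset.card_union_le X1 X2
    exact_mod_cast h3.trans (h4.trans (by omega))
  calc (X.card : ℝ) ≤ X0.card + (X1.card + X2.card) := hfin
    _ ≤ C1 * (R : ℝ) ^ (1 + β) + (C2 * 3 ^ (1 + β) * (R : ℝ) ^ (1 + β) +
        C2 * 3 ^ (1 + β) * (R : ℝ) ^ (1 + β)) := by linarith
    _ = (C1 + 2 * (C2 * 3 ^ (1 + β))) * (R : ℝ) ^ (1 + β) := by ring

theorem stayLarge_finite (σ : ℤ) (θ : ℝ) (R : ℕ) : (stayLarge σ θ R).Finite := by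
  refine (box R).finite_toSet.subset ?_
  rintro u ⟨h1, h2, -⟩
  exact Finset.mem_coe.2 (mem_box.2 ⟨h1, h2⟩)

/-- the theorem with a table -/
theorem almost (T' : TabF t p) {σ : ℤ} (hσ : σ = 1 ∨ σ = -1) (hB : p.B = mB σ) {θ : ℝ}
    (hθ0 : 0 ≤ θ) (hθ : θ ≤ 1) (hκ : (p.kN : ℝ) / 8000000 * (2 ^ (1 - θ)) ^ 2 < 1) :
    ∃ δ C : ℝ, 0 < δ ∧ ∀ R : ℕ, 1 ≤ R →
      ((stayLarge σ θ R).ncard : ℝ) ≤ C * (R : ℝ) ^ (2 - δ) := by
  classical
  obtain ⟨β, hβ0, hβ1, hX⟩ := Xc_bound T' hσ hB hθ hκ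
  obtain ⟨C, hC, h⟩ := hX (1 / 2 ^ θ) (by positivity)
  -- recursion
  have hrec : ∀ R : ℕ, 1 ≤ R → ((stayLarge σ θ R).ncard : ℝ) ≤
      ((stayLarge σ θ (R / 2)).ncard : ℝ) + C * (R : ℝ) ^ (1 + β) := by
    intro R hR
    have hRp : (0 : ℝ) < R := by exact_mod_cast hR
    have hsub : stayLarge σ θ R ⊆ stayLarge σ θ (R / 2) ∪ ↑(Xc σ (1 / 2 ^ θ * (R : ℝ) ^ θ) R) := by
      rintro u ⟨h1, h2, h3, x, hx, hx0, hx1, hall⟩
      by_cases hle : mx u ≤ ((R / 2 : ℕ) : ℤ)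
      · left
        exact ⟨(le_max_left _ _).trans hle, (le_max_right _ _).trans hle, h3, x, hx, hx0, hx1, hall⟩
      · right
        rw [Finset.mem_coe, mem_Xc]
        refine ⟨max_le h1 h2, Int.isCoprime_iff_gcd_eq_one.2 h3, fun k => ?_⟩
        have e1 : (T σ)^[k] u = (x k, x (k + 1)) := by
          have := sol_iterate hx k
          rw [hx0, hx1] at this
          exact this
        rw [e1, mx]
        refine lt_of_le_of_lt ?_ (hall k)
        have e2 : (R : ℝ) / 2 ≤ ((max |x 0| |x 1| : ℤ) : ℝ) := by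
          rw [hx0, hx1]
          have e3 : ((R / 2 : ℕ) : ℤ) + 1 ≤ mx u := by omega
          have e4 : ((((R / 2 : ℕ) : ℤ) + 1 : ℤ) : ℝ) ≤ ((mx u : ℤ) : ℝ) := Int.cast_le.2 e3
          rw [Int.cast_add, Int.cast_natCast, Int.cast_one] at e4
          have e5 : (R : ℝ) ≤ 2 * ((R / 2 : ℕ) : ℝ) + 1 := by
            have : R ≤ 2 * (R / 2) + 1 := by omega
            exact_mod_cast this
          show (R : ℝ) / 2 ≤ ((mx u : ℤ) : ℝ)
          linarith
        have e3 : 1 / 2 ^ θ * (R : ℝ) ^ θ = ((R : ℝ) / 2) ^ θ := by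
          rw [Real.div_rpow hRp.le (by norm_num)]
          ring
        rw [e3]
        exact Real.rpow_le_rpow (by positivity) e2 hθ0
    have h4 := Set.ncard_le_ncard hsub
      ((stayLarge_finite σ θ (R / 2)).union (Finset.finite_toSet _))
    have h5 := Set.ncard_union_le (stayLarge σ θ (R / 2)) ↑(Xc σ (1 / 2 ^ θ * (R : ℝ) ^ θ) R)
    rw [Set.ncard_coe_finset] at h5
    have h6 := h4.trans h5
    have h7 : ((stayLarge σ θ R).ncard : ℝ) ≤ ((stayLarge σ θ (R / 2)).ncard : ℝ) +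
        ((Xc σ (1 / 2 ^ θ * (R : ℝ) ^ θ) R).card : ℝ) := by exact_mod_cast h6
    exact h7.trans (add_le_add le_rfl (h R hR))
  refine ⟨1 - β, 2 * C, by linarith, ?_⟩
  have hexp : (2 : ℝ) - (1 - β) = 1 + β := by ring
  rw [hexp]
  intro R
  induction R using Nat.strong_induction_on with
  | _ R ih =>
    intro hR
    have hRp : (0 : ℝ) < R := by exact_mod_cast hR
    have h1 := hrec R hR
    have h2 : ((stayLarge σ θ (R / 2)).ncard : ℝ) ≤ C * (R : ℝ) ^ (1 + β) := by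
      rcases Nat.eq_zero_or_pos (R / 2) with h0 | h0
      · rw [h0]
        have h3 : stayLarge σ θ 0 = ∅ := by
          rw [Set.eq_empty_iff_forall_notMem]
          rintro ⟨a, b⟩ ⟨e1, e2, e3, -⟩
          simp only [Nat.cast_zero, abs_nonpos_iff] at e1 e2 e3
          rw [e1, e2] at e3
          simp at e3
        rw [h3, Set.ncard_empty, Nat.cast_zero]
        positivity
      · have h3 := ih (R / 2) (by omega) h0
        refine h3.trans ?_
        have h4 : (((R / 2 : ℕ) : ℝ)) ≤ (R : ℝ) / 2 := Nat.cast_div_le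
        have h5 : (((R / 2 : ℕ) : ℝ)) ^ (1 + β) ≤ ((R : ℝ) / 2) ^ (1 + β) :=
          Real.rpow_le_rpow (Nat.cast_nonneg _) h4 (by linarith)
        have h6 : ((R : ℝ) / 2) ^ (1 + β) ≤ (R : ℝ) ^ (1 + β) / 2 := by
          rw [Real.div_rpow hRp.le (by norm_num)]
          refine div_le_div_of_nonneg_left (Real.rpow_nonneg hRp.le _) (by norm_num) ?_
          calc (2 : ℝ) = 2 ^ (1 : ℝ) := (Real.rpow_one 2).symm
            _ ≤ 2 ^ (1 + β) := Real.rpow_le_rpow_of_exponent_le (by norm_num) (by linarith)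
        have h7 := mul_le_mul_of_nonneg_left (h5.trans h6) (by positivity : (0 : ℝ) ≤ 2 * C)
        linarith
    linarith

end

end Pool.Agent.Helper97.PR
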