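import Mathlib

/-!
# Parity-switched recurrence (MP_2a27b1_nt): cone tables

A table of consecutive directions `v_0 = (1, 0), ..., v_K = (-1, 0)` of the upper half plane with weights `g_k`
and a checked certificate that the weighted function `g_k Q^(-m/n)` is superharmonic for the two inverse branches.
-/

set_option autoImplicit false

namespace Pool.Agent.Helper97.PR

/-- binary search tree with cone vectors and weights at the leaves -/
inductive Tr where
  | leaf (x y : ℤ) (g : ℕ) : Tr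
  | node (n : ℕ) (l r : Tr) : Tr

/-- look up entry `k` -/
def Tr.get : Tr → ℕ → ℤ × ℤ × ℕ
  | .leaf x y g, _ => (x, y, g)
  | .node n l r, k => bif Nat.blt k n then l.get k else r.get k

/-- the direction `v_k` -/
def V (t : Tr) (k : ℕ) : ℤ × ℤ := ((t.get k).1, (t.get k).2.1)

/-- the weight `g_k` -/
def W (t : Tr) (k : ℕ) : ℕ := (t.get k).2.2

/-- determinant -/
def dt (v w : ℤ × ℤ) : ℤ := v.1 * w.2 - v.2 * w.1

/-- polar form of `2 (x^2 - x y + 2 y^2)` -/
def Qp (v w : ℤ × ℤ) : ℤ := 2 * v.1 * w.1 - (v.1 * w.2 + v.2 * w.1) + 4 * v.2 * w.2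

/-- a linear map given by its matrix -/
def lin (m : ℤ × ℤ × ℤ × ℤ) (v : ℤ × ℤ) : ℤ × ℤ :=
  (m.1 * v.1 + m.2.1 * v.2, m.2.2.1 * v.1 + m.2.2.2 * v.2)

/-- sign from a Boolean -/
def sg (e : Bool) : ℤ := bif e then 1 else -1

/-- scalar multiple -/
def sm (c : ℤ) (v : ℤ × ℤ) : ℤ × ℤ := (c * v.1, c * v.2)

/-- the weights from `a` on, `n` of them, are at least `g` -/
def rangeOk (t : Tr) (g : ℕ) : ℕ → ℕ → Bool
  | _, 0 => true
  | a, n + 1 => Nat.ble g (W t a) && rangeOk t g (a + 1) n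

/-- the image of cone `k` under `m`, up to the sign `e`, lies in the cones `a, ..., a + n` whose weights are `≥ g` -/
def imgOk (t : Tr) (K : ℕ) (m : ℤ × ℤ × ℤ × ℤ) (k : ℕ) (e : Bool) (a n g : ℕ) : Bool :=
  let w0 := sm (sg e) (lin m (V t k))
  let w1 := sm (sg e) (lin m (V t (k + 1)))
  decide (0 ≤ w0.2) && (decide (0 ≤ w1.2) &&
  ((Nat.beq a 0 || (decide (0 ≤ dt (V t a) w0) && decide (0 ≤ dt (V t a) w1))) &&
  (Nat.blt (a + n) K &&
  ((Nat.beq (a + n + 1) K ||
    (decide (dt (V t (a + n + 1)) w0 < 0) && decide (dt (V t (a + n + 1)) w1 ≤ 0))) &&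
  rangeOk t g a (n + 1)))))

/-- a record of the certificate -/
structure Rc where
  eA : Bool
  aA : ℕ
  nA : ℕ
  gA : ℕ
  eB : Bool
  aB : ℕ
  nB : ℕ
  gB : ℕ
  R : ℕ
  c : ℕ

/-- parameters: number of cones, matrix of the second inverse branch, exponent `m / n` of the form, coefficient of
the first branch -/
structure Pm where
  K : ℕ
  B : ℤ × ℤ × ℤ × ℤ
  m : ℕ
  n : ℕ
  cA : ℕ

/-- the form condition for the second branch -/
def formOk (t : Tr) (m : ℤ × ℤ × ℤ × ℤ) (k R : ℕ) : Bool :=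
  let v := V t k
  let w := V t (k + 1)
  decide (1000000 * Qp (lin m v) (lin m v) ≤ R * Qp v v) &&
  (decide (1000000 * Qp (lin m v) (lin m w) ≤ R * Qp v w) &&
  decide (1000000 * Qp (lin m w) (lin m w) ≤ R * Qp w w))

/-- check of one cone -/
def oneOk (t : Tr) (p : Pm) (k : ℕ) (r : Rc) : Bool :=
  decide (0 < dt (V t k) (V t (k + 1))) &&
  ((Nat.beq k 0 || decide (0 < (V t k).2)) &&
  (imgOk t p.K (1, -2, 1, 0) k r.eA r.aA r.nA r.gA &&
  (imgOk t p.K p.B k r.eB r.aB r.nB r.gB &&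
  (formOk t p.B k r.R &&
  (Nat.ble (r.c ^ p.n * r.R ^ p.m) (10 ^ (4 * p.n + 6 * p.m)) &&
  (Nat.ble (10010000 * W t k) (1000 * (p.cA * r.gA + r.c * r.gB)) &&
  Nat.ble 1 (W t k)))))))

/-- check of all cones from `k` on -/
def allOk (t : Tr) (p : Pm) : ℕ → List Rc → Bool
  | k, [] => Nat.beq k p.K
  | k, r :: l => oneOk t p k r && allOk t p (k + 1) l

/-- the complete check -/
def chk (t : Tr) (p : Pm) (l : List Rc) : Bool :=
  decide (V t 0 = (1, 0)) && (decide (V t p.K = (-1, 0)) && (Nat.ble 1 p.K &&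
  (Nat.ble (p.cA ^ p.n * 2 ^ p.m) (10 ^ (4 * p.n)) && allOk t p 0 l)))

end Pool.Agent.Helper97.PR
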