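import Mathlib

/-!
# Parity-switched recurrence (MP_2a27b1_nt): definitions
-/

set_option autoImplicit false

namespace Pool.Agent.Helper97.PR

/-- `x` is a solution of the recurrence with parameters `(1, -1, σ, σ)`: `x (n + 2) = (x (n + 1) - x n) / 2` if
`x (n + 1) + x n` is even and `x (n + 2) = σ (x (n + 1) + x n)` if it is odd; `σ = 1` in Q1, `σ = -1` in Q2 -/
def IsSol (σ : ℤ) (x : ℕ → ℤ) : Prop :=
  ∀ n, x (n + 2) = if (x (n + 1) + x n) % 2 = 0 then (x (n + 1) - x n) / 2 else σ * (x (n + 1) + x n)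

/-- the pairs of coprime integers `(x_0, x_1)` with `|x_0|, |x_1| ≤ R` whose solution is eventually periodic -/
def periodicPairs (σ : ℤ) (R : ℕ) : Set (ℤ × ℤ) :=
  {p | |p.1| ≤ R ∧ |p.2| ≤ R ∧ Int.gcd p.1 p.2 = 1 ∧
    ∀ x : ℕ → ℤ, IsSol σ x → x 0 = p.1 → x 1 = p.2 → ∃ N k, 0 < k ∧ ∀ n, N ≤ n → x (n + k) = x n}

end Pool.Agent.Helper97.PR
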