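import Pool.Agent.Helper97.PR.Super
import Pool.Agent.Helper97.PR.Defs

/-!
# Parity-switched recurrence (MP_2a27b1_nt): counting pairs with eventually periodic solution
-/

set_option autoImplicit false

namespace Pool.Agent.Helper97.PR

/-- the map on pairs -/
def T (σ : ℤ) (p : ℤ × ℤ) : ℤ × ℤ :=
  (p.2, if (p.2 + p.1) % 2 = 0 then (p.2 - p.1) / 2 else σ * (p.2 + p.1))

theorem sol_iterate {σ : ℤ} {x : ℕ → ℤ} (h : IsSol σ x) (n : ℕ) :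
    (T σ)^[n] (x 0, x 1) = (x n, x (n + 1)) := by
  induction n with
  | zero => rfl
  | succ n ih =>
    rw [Function.iterate_succ_apply', ih, T]
    exact Prod.ext rfl (h n).symm

/-- eventually periodic pairs in terms of the map -/
def EvP (σ : ℤ) (p : ℤ × ℤ) : Prop := ∃ N k, 0 < k ∧ (T σ)^[N + k] p = (T σ)^[N] p

theorem evP_sol {σ : ℤ} {x : ℕ → ℤ} (h : IsSol σ x) (he : EvP σ (x 0, x 1)) :
    ∃ N k, 0 < k ∧ ∀ n, N ≤ n → x (n + k) = x n := by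
  obtain ⟨N, k, hk, hN⟩ := he
  refine ⟨N, k, hk, fun n hn => ?_⟩
  obtain ⟨d, rfl⟩ := Nat.exists_eq_add_of_le hn
  have h1 : (T σ)^[d + (N + k)] (x 0, x 1) = (T σ)^[d + N] (x 0, x 1) := by
    rw [Function.iterate_add_apply, hN, ← Function.iterate_add_apply]
  rw [sol_iterate h, sol_iterate h] at h1
  have h2 := congrArg Prod.fst h1
  simp only at h2
  rw [show N + d + k = d + (N + k) by ring, show N + d = d + N by ring]
  exact h2

theorem evP_of_iterate {σ : ℤ} {p q : ℤ × ℤ} {j : ℕ} (h : (T σ)^[j] p = q) (hq : EvP σ q) :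
    EvP σ p := by
  obtain ⟨N, k, hk, hN⟩ := hq
  refine ⟨N + j, k, hk, ?_⟩
  rw [show N + j + k = (N + k) + j by ring, Function.iterate_add_apply, h, hN,
    Function.iterate_add_apply, h]

/-- the box -/
noncomputable def box (R : ℕ) : Finset (ℤ × ℤ) := Finset.Icc (-(R : ℤ)) R ×ˢ Finset.Icc (-(R : ℤ)) R

theorem mem_box {R : ℕ} {p : ℤ × ℤ} : p ∈ box R ↔ |p.1| ≤ R ∧ |p.2| ≤ R := by
  simp only [box, Finset.mem_product, Finset.mem_Icc, abs_le]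

open Classical in
/-- the counting lemma -/
theorem count_abstract (fA fB : ℤ × ℤ → ℤ × ℤ) (P : ℤ × ℤ → Prop) (hA : ∀ u, P u → P (fA u))
    (hB : ∀ u, P u → P (fB u)) (h11 : P (1, 1))
    (injA : ∀ u v, P u → P v → fA u = fA v → u = v) (injB : ∀ u v, P u → P v → fB u = fB v → u = v)
    (disj : ∀ u v, P u → P v → fA u ≠ fB v) (Φ : ℤ × ℤ → ℝ) (h0 : ∀ u, 0 ≤ Φ u) (h1 : 0 < Φ (1, 1))
    {ρ : ℝ} (hρ : 1 < ρ) (hs : ∀ u, P u → ρ * Φ u ≤ Φ (fA u) + Φ (fB u)) {M s : ℝ} (hM : 0 < M)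
    (hout : ∀ (R : ℕ) (w : ℤ × ℤ), 1 ≤ R → P w → w ∉ box R → Φ w ≤ M * (R : ℝ) ^ (-s)) :
    ∃ c : ℝ, 0 < c ∧ ∀ R : ℕ, 1 ≤ R → c * (R : ℝ) ^ s ≤ (((box R).filter P).card : ℝ) := by
  refine ⟨(ρ - 1) * Φ (1, 1) / (2 * M), by have := sub_pos.2 hρ; positivity, fun R hR => ?_⟩
  set S := (box R).filter P with hS
  have hmem : ∀ {u}, u ∈ S ↔ u ∈ box R ∧ P u := fun {u} => by rw [hS, Finset.mem_filter]
  have hb : 0 ≤ M * (R : ℝ) ^ (-s) := mul_nonneg hM.le (Real.rpow_nonneg (Nat.cast_nonneg R) _)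
  have key : ∀ f : ℤ × ℤ → ℤ × ℤ, (∀ u, P u → P (f u)) →
      (∀ u v, P u → P v → f u = f v → u = v) →
      ∑ u ∈ S, Φ (f u) ≤ ∑ z ∈ (S.filter fun u => f u ∈ S).image f, Φ z +
        S.card * (M * (R : ℝ) ^ (-s)) := by
    intro f hf inj
    rw [← Finset.sum_filter_add_sum_filter_not S (fun u => f u ∈ S) (fun u => Φ (f u))]
    refine add_le_add (le_of_eq ?_) ?_
    · rw [Finset.sum_image]
      intro u hu v hv huv
      have hu' := (hmem.1 (Finset.mem_filter.1 hu).1).2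
      have hv' := (hmem.1 (Finset.mem_filter.1 hv).1).2
      exact inj u v hu' hv' huv
    · refine le_trans (Finset.sum_le_card_nsmul _ _ (M * (R : ℝ) ^ (-s)) ?_) ?_
      · intro u hu
        obtain ⟨hu1, hu2⟩ := Finset.mem_filter.1 hu
        have hu3 := (hmem.1 hu1).2
        refine hout R (f u) hR (hf u hu3) fun hbx => hu2 ?_
        exact hmem.2 ⟨hbx, hf u hu3⟩
      · rw [nsmul_eq_mul]
        refine mul_le_mul_of_nonneg_right ?_ hb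
        exact_mod_cast Finset.card_filter_le _ _
  have hsub : ∀ f : ℤ × ℤ → ℤ × ℤ, (S.filter fun u => f u ∈ S).image f ⊆ S := by
    intro f z hz
    obtain ⟨u, hu, rfl⟩ := Finset.mem_image.1 hz
    exact (Finset.mem_filter.1 hu).2
  have hdisj : Disjoint ((S.filter fun u => fA u ∈ S).image fA)
      ((S.filter fun u => fB u ∈ S).image fB) := by
    rw [Finset.disjoint_left]
    intro z hz1 hz2
    obtain ⟨u, hu, rfl⟩ := Finset.mem_image.1 hz1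
    obtain ⟨v, hv, hv2⟩ := Finset.mem_image.1 hz2
    have hu' := (hmem.1 (Finset.mem_filter.1 hu).1).2
    have hv' := (hmem.1 (Finset.mem_filter.1 hv).1).2
    exact disj u v hu' hv' hv2.symm
  have hsum : ∑ z ∈ (S.filter fun u => fA u ∈ S).image fA, Φ z +
      ∑ z ∈ (S.filter fun u => fB u ∈ S).image fB, Φ z ≤ ∑ z ∈ S, Φ z := by
    rw [← Finset.sum_union hdisj]
    exact Finset.sum_le_sum_of_subset_of_nonneg (Finset.union_subset (hsub fA) (hsub fB))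
      fun z _ _ => h0 z
  have h2 : ρ * ∑ u ∈ S, Φ u ≤ ∑ u ∈ S, Φ (fA u) + ∑ u ∈ S, Φ (fB u) := by
    rw [Finset.mul_sum, ← Finset.sum_add_distrib]
    exact Finset.sum_le_sum fun u hu => hs u (hmem.1 hu).2
  have h3 := key fA hA injA
  have h4 := key fB hB injB
  have h11S : (1, 1) ∈ S := by
    refine hmem.2 ⟨mem_box.2 ?_, h11⟩
    simp only [abs_one]
    have hR' : (1 : ℤ) ≤ (R : ℤ) := by exact_mod_cast hR
    exact ⟨hR', hR'⟩
  have h5 : Φ (1, 1) ≤ ∑ u ∈ S, Φ u := Finset.single_le_sum (f := Φ) (fun u _ => h0 u) h11S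
  have h6 : (ρ - 1) * Φ (1, 1) ≤ 2 * (S.card * (M * (R : ℝ) ^ (-s))) := by
    have h7 : (ρ - 1) * Φ (1, 1) ≤ (ρ - 1) * ∑ u ∈ S, Φ u :=
      mul_le_mul_of_nonneg_left h5 (by linarith)
    linarith
  have hRp : 0 < (R : ℝ) := by exact_mod_cast hR
  have h8 : (R : ℝ) ^ (-s) * (R : ℝ) ^ s = 1 := by
    rw [← Real.rpow_add hRp, neg_add_cancel, Real.rpow_zero]
  have h9 : 0 < (R : ℝ) ^ s := Real.rpow_pos_of_pos hRp s
  rw [div_mul_eq_mul_div, div_le_iff₀ (by positivity)]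
  calc (ρ - 1) * Φ (1, 1) * (R : ℝ) ^ s
      ≤ 2 * (S.card * (M * (R : ℝ) ^ (-s))) * (R : ℝ) ^ s := mul_le_mul_of_nonneg_right h6 h9.le
    _ = (S.card : ℝ) * (2 * M) * ((R : ℝ) ^ (-s) * (R : ℝ) ^ s) := by ring
    _ = (S.card : ℝ) * (2 * M) := by rw [h8, mul_one]

section
variable {t : Tr} {p : Pm}

/-- the superharmonic function -/
noncomputable def Phi (t : Tr) (p : Pm) (w : ℤ × ℤ) : ℝ :=
  (Gw t w : ℝ) * ((Qp w w : ℤ) : ℝ) ^ (-((p.m : ℝ) / p.n))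

theorem Qp_A (u : ℤ × ℤ) : Qp (lin (1, -2, 1, 0) u) (lin (1, -2, 1, 0) u) = 2 * Qp u u := by
  simp only [Qp, lin]; ring

theorem Qp_nonneg (u : ℤ × ℤ) : 0 ≤ Qp u u := by
  have h2 : 4 * Qp u u = 2 * (2 * u.1 - u.2) ^ 2 + 14 * u.2 ^ 2 := by
    simp only [Qp]; ring
  nlinarith [sq_nonneg (2 * u.1 - u.2), sq_nonneg u.2]

theorem Phi_nonneg (u : ℤ × ℤ) : 0 ≤ Phi t p u :=
  mul_nonneg (Nat.cast_nonneg _) (Real.rpow_nonneg (by exact_mod_cast Qp_nonneg u) _)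

theorem Tab.super (T' : Tab t p) (hn : 0 < p.n) {u : ℤ × ℤ} (h0 : u.2 ≠ 0) (h1 : u.1 ≠ 0)
    (h2 : (lin p.B u).2 ≠ 0) :
    1.001 * Phi t p u ≤ Phi t p (lin (1, -2, 1, 0) u) + Phi t p (lin p.B u) := by
  obtain ⟨gA, gB, R, c, e1, e2, e3, e4, e5, -⟩ := T'.cert h0 h1 h2
  have hX : (0 : ℝ) < ((Qp u u : ℤ) : ℝ) := by exact_mod_cast Qp_pos h0
  have hY : (0 : ℝ) < ((Qp (lin p.B u) (lin p.B u) : ℤ) : ℝ) := by exact_mod_cast Qp_pos h2
  have hZ : (0 : ℝ) < ((Qp (lin (1, -2, 1, 0) u) (lin (1, -2, 1, 0) u) : ℤ) : ℝ) := by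
    rw [Qp_A]; push_cast; linarith
  set X : ℝ := ((Qp u u : ℤ) : ℝ) with hXd
  have hR0 : (0 : ℝ) < (R : ℝ) := by
    rcases Nat.eq_zero_or_pos R with h | h
    · rw [h] at e3
      have := Qp_pos h2
      push_cast at e3
      omega
    · exact_mod_cast h
  have hA := rpow_bound (X := X) (Y := ((Qp (lin (1, -2, 1, 0) u) (lin (1, -2, 1, 0) u) : ℤ) : ℝ))
    (r := 2) (c := (p.cA : ℝ) / 10 ^ 4) (m := p.m) hn hX hZ two_pos (by positivity)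
    (by rw [Qp_A]; push_cast; exact le_rfl)
    (by
      have h3 : ((p.cA : ℝ)) ^ p.n * 2 ^ p.m ≤ 10 ^ (4 * p.n) := by exact_mod_cast T'.cA
      rw [div_pow, ← pow_mul, div_mul_eq_mul_div, div_le_one (by positivity)]
      exact h3)
  have hB := rpow_bound (X := X) (Y := ((Qp (lin p.B u) (lin p.B u) : ℤ) : ℝ))
    (r := (R : ℝ) / 10 ^ 6) (c := (c : ℝ) / 10 ^ 4) (m := p.m) hn hX hY (by positivity)
    (by positivity)
    (by
      have h3 : (1000000 : ℝ) * ((Qp (lin p.B u) (lin p.B u) : ℤ) : ℝ) ≤ (R : ℝ) * X := by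
        rw [hXd]
        exact_mod_cast e3
      rw [div_mul_eq_mul_div, le_div_iff₀ (by positivity)]
      linarith)
    (by
      have h3 : ((c : ℝ)) ^ p.n * (R : ℝ) ^ p.m ≤ 10 ^ (4 * p.n + 6 * p.m) := by exact_mod_cast e4
      rw [div_pow, div_pow, ← pow_mul, ← pow_mul, div_mul_div_comm, ← pow_add,
        div_le_one (by positivity)]
      exact h3)
  have hXp : 0 ≤ X ^ (-((p.m : ℝ) / p.n)) := Real.rpow_nonneg hX.le _
  have f1 : (gA : ℝ) * ((p.cA : ℝ) / 10 ^ 4 * X ^ (-((p.m : ℝ) / p.n))) ≤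
      Phi t p (lin (1, -2, 1, 0) u) := by
    refine mul_le_mul (by exact_mod_cast e1) hA (by positivity) (Nat.cast_nonneg _)
  have f2 : (gB : ℝ) * ((c : ℝ) / 10 ^ 4 * X ^ (-((p.m : ℝ) / p.n))) ≤ Phi t p (lin p.B u) := by
    refine mul_le_mul (by exact_mod_cast e2) hB (by positivity) (Nat.cast_nonneg _)
  have f3 : (10010000 : ℝ) * (Gw t u : ℝ) ≤ 1000 * ((p.cA : ℝ) * gA + (c : ℝ) * gB) := by
    exact_mod_cast e5
  have f4 : 1.001 * Phi t p u ≤ (gA : ℝ) * ((p.cA : ℝ) / 10 ^ 4 * X ^ (-((p.m : ℝ) / p.n))) +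
      (gB : ℝ) * ((c : ℝ) / 10 ^ 4 * X ^ (-((p.m : ℝ) / p.n))) := by
    have f5 : 1.001 * (Gw t u : ℝ) ≤ ((gA : ℝ) * p.cA + (gB : ℝ) * c) / 10 ^ 4 := by
      rw [le_div_iff₀ (by positivity)]
      linarith
    calc 1.001 * Phi t p u = 1.001 * (Gw t u : ℝ) * X ^ (-((p.m : ℝ) / p.n)) := by
          rw [Phi]; ring
      _ ≤ ((gA : ℝ) * p.cA + (gB : ℝ) * c) / 10 ^ 4 * X ^ (-((p.m : ℝ) / p.n)) :=
          mul_le_mul_of_nonneg_right f5 hXp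
      _ = _ := by ring
  linarith

theorem Tab.Gw_le (T' : Tab t p) : ∃ M : ℕ, 1 ≤ M ∧ ∀ w : ℤ × ℤ, w.2 ≠ 0 → Gw t w ≤ M := by
  refine ⟨(Finset.range p.K).sup (W t) + 1, Nat.le_add_left _ _, fun w hw => ?_⟩
  have h1 : 0 < (up w).2 := by
    rw [up]
    by_cases h : 0 < w.2
    · rwa [if_pos h]
    · rw [if_neg h]
      show 0 < -w.2
      omega
  have h2 := (T'.idx_mem h1).2
  exact (Finset.le_sup (f := W t) (Finset.mem_range.2 h2)).trans (Nat.le_succ _)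

theorem Qp_out {R : ℕ} {w : ℤ × ℤ} (h : w ∉ box R) : (R : ℤ) ^ 2 ≤ Qp w w := by
  rw [mem_box] at h
  have h3 : 2 * Qp w w = 2 * w.1 ^ 2 + 2 * (w.1 - w.2) ^ 2 + 6 * w.2 ^ 2 := by
    simp only [Qp]; ring
  have h4 : 0 ≤ (w.1 - w.2) ^ 2 := sq_nonneg _
  have h5 : 0 ≤ w.1 ^ 2 := sq_nonneg _
  have h6 : 0 ≤ w.2 ^ 2 := sq_nonneg _
  by_cases h1 : |w.1| ≤ R
  · have h2 : (R : ℤ) < |w.2| := by
      by_contra h7
      push Not at h7
      exact h ⟨h1, h7⟩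
    have h7 : (R : ℤ) ^ 2 ≤ w.2 ^ 2 := by
      rw [← sq_abs w.2]
      exact pow_le_pow_left₀ (Int.natCast_nonneg R) h2.le 2
    linarith
  · push Not at h1
    have h7 : (R : ℤ) ^ 2 ≤ w.1 ^ 2 := by
      rw [← sq_abs w.1]
      exact pow_le_pow_left₀ (Int.natCast_nonneg R) h1.le 2
    linarith

theorem out_bound {M : ℕ} (hM : ∀ w : ℤ × ℤ, w.2 ≠ 0 → Gw t w ≤ M) (R : ℕ)
    (w : ℤ × ℤ) (hR : 1 ≤ R) (hw : w.2 ≠ 0) (hb : w ∉ box R) :
    Phi t p w ≤ (M : ℝ) * (R : ℝ) ^ (-(2 * ((p.m : ℝ) / p.n))) := by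
  have h1 : ((R : ℝ)) ^ 2 ≤ ((Qp w w : ℤ) : ℝ) := by exact_mod_cast Qp_out hb
  have hRp : (0 : ℝ) < R := by exact_mod_cast hR
  have h2 : ((Qp w w : ℤ) : ℝ) ^ (-((p.m : ℝ) / p.n)) ≤ ((R : ℝ) ^ 2) ^ (-((p.m : ℝ) / p.n)) := by
    refine Real.rpow_le_rpow_of_nonpos (by positivity) h1 ?_
    have : 0 ≤ (p.m : ℝ) / p.n := by positivity
    linarith
  have h3 : ((R : ℝ) ^ 2) ^ (-((p.m : ℝ) / p.n)) = (R : ℝ) ^ (-(2 * ((p.m : ℝ) / p.n))) := by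
    rw [← Real.rpow_natCast, ← Real.rpow_mul hRp.le]
    congr 1
    push_cast
    ring
  rw [← h3]
  exact mul_le_mul (by exact_mod_cast hM w hw) h2 (Real.rpow_nonneg (by linarith [sq_nonneg (R:ℝ)]) _)
    (Nat.cast_nonneg _)

end

end Pool.Agent.Helper97.PR
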