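import Pool.Agent.Helper97.PR.Second

/-!
# Parity-switched recurrence (MP_2a27b1_nt): almost all pairs of odd integers come down
-/

set_option autoImplicit false

namespace Pool.Agent.Helper97.PR

theorem exists_pow_two {R : ℕ} (hR : 1 ≤ R) : ∃ n : ℕ, R ^ 2 ≤ 2 ^ n ∧ 2 ^ n ≤ 2 * R ^ 2 := by
  refine ⟨Nat.log 2 (R ^ 2) + 1, (Nat.lt_pow_succ_log_self one_lt_two _).le, ?_⟩
  have h : R ^ 2 ≠ 0 := by positivity
  have h1 := Nat.pow_log_le_self 2 h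
  rw [pow_succ]
  omega

theorem Qp_add_le (x y : ℤ × ℤ) : Qp (x + y) (x + y) ≤ 2 * Qp x x + 2 * Qp y y := by
  have h : 2 * Qp x x + 2 * Qp y y - Qp (x + y) (x + y) = Qp (x - y) (x - y) := by
    simp only [Qp, Prod.fst_add, Prod.snd_add, Prod.fst_sub, Prod.snd_sub]; ring
  have := Qp_nonneg (x - y)
  linarith

theorem Qp_smul (c : ℤ) (x : ℤ × ℤ) : Qp (c • x) (c • x) = c ^ 2 * Qp x x := by
  simp only [Qp, Prod.smul_fst, Prod.smul_snd, smul_eq_mul]; ring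

theorem mx_sq_le (x : ℤ × ℤ) : mx x ^ 2 ≤ Qp x x := by
  have h : Qp x x = x.1 ^ 2 + (x.1 - x.2) ^ 2 + 3 * x.2 ^ 2 := by
    simp only [Qp]; ring
  rw [mx]
  rcases max_choice |x.1| |x.2| with h1 | h1
  · rw [h1, sq_abs, h]
    nlinarith [sq_nonneg (x.1 - x.2), sq_nonneg x.2]
  · rw [h1, sq_abs, h]
    nlinarith [sq_nonneg (x.1 - x.2), sq_nonneg x.1, sq_nonneg x.2]

theorem mx_nonneg (x : ℤ × ℤ) : 0 ≤ mx x := (abs_nonneg _).trans (le_max_left _ _)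

section
variable {t : Tr} {p : PmF}

theorem TabF.Qp_le_fG (T : TabF t p) (u : ℤ × ℤ) : ((Qp u u : ℤ) : ℝ) ≤ fG t u := by
  by_cases hu : u = 0
  · rw [hu]
    show ((Qp (0, 0) (0, 0) : ℤ) : ℝ) ≤ fG t (0, 0)
    rw [fG_zero]
    simp [Qp]
  · have h1 := (T.cert hu).2
    have hQ : (0 : ℝ) < ((Qp u u : ℤ) : ℝ) := by exact_mod_cast Qp_pos' hu
    have hG1 : (1 : ℝ) ≤ (Gf t u : ℝ) := by exact_mod_cast h1
    rw [fG]
    nlinarith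

open Classical in
/-- number of words with large value -/
theorem count_words {m₁ m₂ : ℤ × ℤ × ℤ × ℤ} {μ r s : ℝ} (hμ : 0 < μ) (hr : 0 ≤ r) (hs : 0 < s)
    (h : ∀ u, fG t (lin m₁ u) ^ μ + fG t (lin m₂ u) ^ μ ≤ r * fG t u ^ μ) (n : ℕ) (u : ℤ × ℤ) :
    (((words n).filter fun w => s < fG t (act m₁ m₂ w u)).card : ℝ) ≤
      s ^ (-μ) * (r ^ n * fG t u ^ μ) := by
  have h1 := sum_words_le (g := fun v => fG t v ^ μ) hr h n u
  have hsμ : 0 < s ^ μ := Real.rpow_pos_of_pos hs μ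
  have h2 : (((words n).filter fun w => s < fG t (act m₁ m₂ w u)).card : ℝ) * s ^ μ ≤
      ∑ w ∈ words n, fG t (act m₁ m₂ w u) ^ μ := by
    rw [← nsmul_eq_mul]
    refine (Finset.card_nsmul_le_sum _ (fun w => fG t (act m₁ m₂ w u) ^ μ) _ ?_).trans ?_
    · intro w hw
      rw [Finset.mem_filter] at hw
      exact Real.rpow_le_rpow hs.le hw.2.le hμ.le
    · exact Finset.sum_le_sum_of_subset_of_nonneg (Finset.filter_subset _ _)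
        fun w _ _ => Real.rpow_nonneg (fG_nonneg t _) _
  rw [Real.rpow_neg hs.le, mul_comm, ← div_eq_mul_inv, le_div_iff₀ hsμ]
  exact h2.trans h1

/-- the exceptional pairs of odd integers -/
theorem odd_bound (T : TabF t p) {σ : ℤ} (hB : p.B = mB σ) {θ : ℝ} (hθ : θ ≤ 1)
    (hκ : (p.kN : ℝ) / 8000000 * (2 ^ (1 - θ)) ^ 2 < 1) :
    ∃ β : ℝ, 0 ≤ β ∧ β < 1 ∧ ∀ c : ℝ, 0 < c → ∃ C : ℝ, 0 ≤ C ∧ ∀ R : ℕ, 1 ≤ R →
      ∀ E : Finset (ℤ × ℤ), E ⊆ Sf R →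
      (∀ u ∈ E, ∀ k, c * (R : ℝ) ^ θ < ((mx ((Fs σ)^[k] u) : ℤ) : ℝ)) →
      (E.card : ℝ) ≤ C * (R : ℝ) ^ (1 + β) := by
  classical
  have hc1 : (1 : ℝ) ≤ 2 ^ (1 - θ) := Real.one_le_rpow one_le_two (by linarith)
  obtain ⟨μ, r, hμ, hr1, hr2, hmom⟩ := T.moment hκ hc1
  rw [hB] at hmom
  set c₀ : ℝ := 2 ^ (1 - θ) with hc₀
  have hc₀p : 0 < c₀ := by linarith
  have hq1 : 1 ≤ r * c₀ ^ μ := by
    have : 1 ≤ c₀ ^ μ := Real.one_le_rpow hc1 hμ.le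
    nlinarith
  have hq0 : 0 < r * c₀ ^ μ := by linarith
  set β : ℝ := Real.logb 2 (r * c₀ ^ μ) with hβ
  have h2β : (2 : ℝ) ^ β = r * c₀ ^ μ := Real.rpow_logb two_pos (by norm_num) hq0
  have hβ0 : 0 ≤ β := Real.logb_nonneg one_lt_two hq1
  have hβ1 : β < 1 := by
    rw [hβ, Real.logb_lt_iff_lt_rpow one_lt_two hq0, Real.rpow_one]
    exact hr2
  refine ⟨β, hβ0, hβ1, fun c hc => ?_⟩
  set C0 : ℝ := fG t (1, 0) ^ μ + fG t (0, 1) ^ μ with hC0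
  have hC0n : 0 ≤ C0 := add_nonneg (Real.rpow_nonneg (fG_nonneg _ _) _)
    (Real.rpow_nonneg (fG_nonneg _ _) _)
  set C1 : ℝ := 450 * (C0 * ((4 / c ^ 2) ^ μ * 2 ^ β)) with hC1
  have hC1n : 0 ≤ C1 := by positivity
  refine ⟨Real.sqrt C1, Real.sqrt_nonneg _, fun R hR E hE hall => ?_⟩
  have hRp : (0 : ℝ) < R := by exact_mod_cast hR
  have hR1 : (1 : ℝ) ≤ R := by exact_mod_cast hR
  obtain ⟨n, hn1, hn2⟩ := exists_pow_two hR
  have hn1' : (R : ℝ) ^ 2 ≤ 2 ^ n := by exact_mod_cast hn1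
  have hn2' : (2 : ℝ) ^ n ≤ 2 * (R : ℝ) ^ 2 := by exact_mod_cast hn2
  set τ : ℝ := c * (R : ℝ) ^ θ with hτ
  have hτ0 : 0 < τ := by positivity
  set s : ℝ := 4 ^ n * (τ ^ 2 / (4 * (R : ℝ) ^ 2)) with hs
  have hs0 : 0 < s := by positivity
  set B1 := (words n).filter fun w => s < fG t (act mA (mB σ) w (1, 0)) with hB1
  set B2 := (words n).filter fun w => s < fG t (act mA (mB σ) w (0, 1)) with hB2
  -- words of exceptional pairs are bad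
  have hbad : ∀ u ∈ E, wrd σ n u ∈ B1 ∪ B2 := by
    intro u hu
    by_contra hcon
    have huS := mem_Sf.1 (hE hu)
    have hw := wrd_mem σ n u
    rw [Finset.mem_union, hB1, hB2, Finset.mem_filter, Finset.mem_filter, not_or] at hcon
    have k1 : fG t (act mA (mB σ) (wrd σ n u) (1, 0)) ≤ s := by
      by_contra h; exact hcon.1 ⟨hw, not_le.1 h⟩
    have k2 : fG t (act mA (mB σ) (wrd σ n u) (0, 1)) ≤ s := by
      by_contra h; exact hcon.2 ⟨hw, not_le.1 h⟩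
    set a1 := act mA (mB σ) (wrd σ n u) (1, 0) with ha1
    set a2 := act mA (mB σ) (wrd σ n u) (0, 1) with ha2
    have e1 : act mA (mB σ) (wrd σ n u) u = u.1 • a1 + u.2 • a2 := by
      rw [ha1, ha2, ← act_smul, ← act_smul, ← act_add]
      congr 1
      refine Prod.ext ?_ ?_
      · simp
      · simp
    have e2 := act_wrd (σ := σ) n u huS.2.1
    have e3 : (4 : ℤ) ^ n * Qp ((Fs σ)^[n] u) ((Fs σ)^[n] u) ≤
        2 * (u.1 ^ 2 * Qp a1 a1) + 2 * (u.2 ^ 2 * Qp a2 a2) := by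
      have e4 := Qp_add_le (u.1 • a1) (u.2 • a2)
      rw [← e1, e2, Qp_smul, Qp_smul, Qp_smul] at e4
      have e5 : ((2 : ℤ) ^ n) ^ 2 = 4 ^ n := by
        rw [← pow_mul, mul_comm, pow_mul]; norm_num
      rw [e5] at e4
      exact e4
    have e3' : (4 : ℝ) ^ n * ((Qp ((Fs σ)^[n] u) ((Fs σ)^[n] u) : ℤ) : ℝ) ≤
        2 * ((u.1 : ℝ) ^ 2 * ((Qp a1 a1 : ℤ) : ℝ)) + 2 * ((u.2 : ℝ) ^ 2 * ((Qp a2 a2 : ℤ) : ℝ)) := by
      exact_mod_cast e3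
    have q1 : ((Qp a1 a1 : ℤ) : ℝ) ≤ s := (T.Qp_le_fG a1).trans k1
    have q2 : ((Qp a2 a2 : ℤ) : ℝ) ≤ s := (T.Qp_le_fG a2).trans k2
    have u1 : (u.1 : ℝ) ^ 2 ≤ (R : ℝ) ^ 2 := by
      have : |u.1| ≤ R := (le_max_left _ _).trans huS.1
      have h2 : |(u.1 : ℝ)| ≤ R := by exact_mod_cast this
      exact sq_le_sq' (by linarith [(abs_le.1 h2).1]) (abs_le.1 h2).2
    have u2 : (u.2 : ℝ) ^ 2 ≤ (R : ℝ) ^ 2 := by
      have : |u.2| ≤ R := (le_max_right _ _).trans huS.1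
      have h2 : |(u.2 : ℝ)| ≤ R := by exact_mod_cast this
      exact sq_le_sq' (by linarith [(abs_le.1 h2).1]) (abs_le.1 h2).2
    have p1 : (u.1 : ℝ) ^ 2 * ((Qp a1 a1 : ℤ) : ℝ) ≤ (R : ℝ) ^ 2 * s :=
      mul_le_mul u1 q1 (by exact_mod_cast Qp_nonneg a1) (by positivity)
    have p2 : (u.2 : ℝ) ^ 2 * ((Qp a2 a2 : ℤ) : ℝ) ≤ (R : ℝ) ^ 2 * s :=
      mul_le_mul u2 q2 (by exact_mod_cast Qp_nonneg a2) (by positivity)
    have p3 : (R : ℝ) ^ 2 * s * 4 = 4 ^ n * τ ^ 2 := by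
      rw [hs]; field_simp
    have p4 : (4 : ℝ) ^ n * ((Qp ((Fs σ)^[n] u) ((Fs σ)^[n] u) : ℤ) : ℝ) ≤ 4 ^ n * τ ^ 2 := by
      linarith
    have p5 : ((Qp ((Fs σ)^[n] u) ((Fs σ)^[n] u) : ℤ) : ℝ) ≤ τ ^ 2 :=
      le_of_mul_le_mul_left p4 (by positivity)
    have p6 : ((mx ((Fs σ)^[n] u) : ℤ) : ℝ) ^ 2 ≤ τ ^ 2 := by
      refine le_trans ?_ p5
      exact_mod_cast mx_sq_le _
    have p7 : ((mx ((Fs σ)^[n] u) : ℤ) : ℝ) ≤ τ := by
      refine le_of_sq_le_sq ?_ hτ0.le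
      exact p6
    exact absurd (hall u hu n) (not_lt.2 p7)
  -- number of bad words
  have hsμ : s ^ (-μ) * (4 ^ μ * r) ^ n = (4 / c ^ 2) ^ μ * (((R : ℝ) ^ (2 * (1 - θ))) ^ μ * r ^ n) := by
    have hτ2 : τ ^ 2 = c ^ 2 * (R : ℝ) ^ (2 * θ) := by
      rw [hτ, mul_pow, ← Real.rpow_natCast ((R : ℝ) ^ θ) 2, ← Real.rpow_mul hRp.le]
      congr 2
      push_cast; ring
    have hR2 : (R : ℝ) ^ 2 = (R : ℝ) ^ (2 * (1 - θ)) * (R : ℝ) ^ (2 * θ) := by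
      rw [← Real.rpow_add hRp, ← Real.rpow_natCast (R : ℝ) 2]
      congr 1
      push_cast; ring
    have hX : (0 : ℝ) < (R : ℝ) ^ (2 * (1 - θ)) := Real.rpow_pos_of_pos hRp _
    have hY : (0 : ℝ) < (R : ℝ) ^ (2 * θ) := Real.rpow_pos_of_pos hRp _
    have e1 : s = 4 ^ n * (4 / c ^ 2 * (R : ℝ) ^ (2 * (1 - θ)))⁻¹ := by
      rw [hs, hτ2, hR2]
      field_simp
    rw [e1, Real.mul_rpow (by positivity) (by positivity), Real.inv_rpow (by positivity),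
      Real.rpow_neg (by positivity : (0 : ℝ) ≤ 4 / c ^ 2 * (R : ℝ) ^ (2 * (1 - θ))), inv_inv,
      Real.mul_rpow (by positivity) hX.le, mul_pow, Real.rpow_neg (by positivity)]
    have e2 : ((4 : ℝ) ^ n) ^ μ = (4 ^ μ) ^ n := by
      rw [← Real.rpow_natCast, ← Real.rpow_natCast, ← Real.rpow_mul (by norm_num),
        ← Real.rpow_mul (by norm_num), mul_comm]
    rw [e2]
    have e3 : ((4 : ℝ) ^ μ) ^ n ≠ 0 := by positivity
    field_simp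
  have hRc : ((R : ℝ) ^ (2 * (1 - θ))) ≤ c₀ ^ n := by
    have e1 : c₀ ^ n = ((2 : ℝ) ^ n) ^ (1 - θ) := by
      rw [hc₀, ← Real.rpow_natCast, ← Real.rpow_natCast, ← Real.rpow_mul (by norm_num),
        ← Real.rpow_mul (by norm_num), mul_comm]
    have e2 : (R : ℝ) ^ (2 * (1 - θ)) = ((R : ℝ) ^ 2) ^ (1 - θ) := by
      rw [← Real.rpow_natCast (R : ℝ) 2, ← Real.rpow_mul hRp.le]
      push_cast; rfl
    rw [e1, e2]
    exact Real.rpow_le_rpow (by positivity) hn1' (by linarith)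
  have hcount : s ^ (-μ) * (4 ^ μ * r) ^ n ≤ (4 / c ^ 2) ^ μ * (2 ^ β * (R : ℝ) ^ (2 * β)) := by
    rw [hsμ]
    refine mul_le_mul_of_nonneg_left ?_ (by positivity)
    have e1 : ((R : ℝ) ^ (2 * (1 - θ))) ^ μ ≤ (c₀ ^ n) ^ μ :=
      Real.rpow_le_rpow (Real.rpow_nonneg hRp.le _) hRc hμ.le
    have e2 : (c₀ ^ n) ^ μ = (c₀ ^ μ) ^ n := by
      rw [← Real.rpow_natCast, ← Real.rpow_natCast, ← Real.rpow_mul hc₀p.le,
        ← Real.rpow_mul hc₀p.le, mul_comm]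
    have e3 : ((2 : ℝ) ^ β) ^ n = ((2 : ℝ) ^ n) ^ β := by
      rw [← Real.rpow_natCast, ← Real.rpow_natCast, ← Real.rpow_mul (by norm_num),
        ← Real.rpow_mul (by norm_num), mul_comm]
    calc ((R : ℝ) ^ (2 * (1 - θ))) ^ μ * r ^ n ≤ (c₀ ^ μ) ^ n * r ^ n := by
          rw [← e2]; exact mul_le_mul_of_nonneg_right e1 (by positivity)
      _ = (r * c₀ ^ μ) ^ n := by rw [mul_pow, mul_comm]
      _ = ((2 : ℝ) ^ n) ^ β := by rw [← h2β, e3]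
      _ ≤ (2 * (R : ℝ) ^ 2) ^ β := Real.rpow_le_rpow (by positivity) hn2' hβ0
      _ = 2 ^ β * (R : ℝ) ^ (2 * β) := by
          rw [Real.mul_rpow (by norm_num) (by positivity), ← Real.rpow_natCast (R : ℝ) 2,
            ← Real.rpow_mul hRp.le]
          push_cast; rfl
  have hBcard : ((B1 ∪ B2).card : ℝ) ≤ C0 * ((4 / c ^ 2) ^ μ * (2 ^ β * (R : ℝ) ^ (2 * β))) := by
    have f1 := count_words (t := t) hμ (by positivity : (0 : ℝ) ≤ 4 ^ μ * r) hs0 hmom n (1, 0)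
    have f2 := count_words (t := t) hμ (by positivity : (0 : ℝ) ≤ 4 ^ μ * r) hs0 hmom n (0, 1)
    have f3 : ((B1 ∪ B2).card : ℝ) ≤ B1.card + B2.card := by
      exact_mod_cast Finset.card_union_le B1 B2
    have f4 : s ^ (-μ) * ((4 ^ μ * r) ^ n * fG t (1, 0) ^ μ) + s ^ (-μ) * ((4 ^ μ * r) ^ n *
        fG t (0, 1) ^ μ) = C0 * (s ^ (-μ) * (4 ^ μ * r) ^ n) := by
      rw [hC0]; ring
    have f5 := mul_le_mul_of_nonneg_left hcount hC0n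
    linarith
  have hCS := card_sq_le hn1 E hE (B1 ∪ B2) hbad
  have hfin : (E.card : ℝ) ^ 2 ≤ C1 * ((R : ℝ) ^ (1 + β)) ^ 2 := by
    have g1 : (50 * (2 * (R : ℝ) + 1) ^ 2) ≤ 450 * (R : ℝ) ^ 2 := by nlinarith
    have g2 : ((R : ℝ) ^ (1 + β)) ^ 2 = (R : ℝ) ^ (2 * β) * (R : ℝ) ^ 2 := by
      rw [← Real.rpow_natCast ((R : ℝ) ^ (1 + β)) 2, ← Real.rpow_mul hRp.le,
        ← Real.rpow_natCast (R : ℝ) 2, ← Real.rpow_add hRp]
      congr 1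
      push_cast; ring
    calc (E.card : ℝ) ^ 2 ≤ (B1 ∪ B2).card * (50 * (2 * R + 1) ^ 2) := hCS
      _ ≤ C0 * ((4 / c ^ 2) ^ μ * (2 ^ β * (R : ℝ) ^ (2 * β))) * (450 * (R : ℝ) ^ 2) :=
          mul_le_mul hBcard g1 (by positivity) (by positivity)
      _ = C1 * ((R : ℝ) ^ (1 + β)) ^ 2 := by rw [g2, hC1]; ring
  have hfin2 : (E.card : ℝ) ^ 2 ≤ (Real.sqrt C1 * (R : ℝ) ^ (1 + β)) ^ 2 := by
    rw [mul_pow, Real.sq_sqrt hC1n]; exact hfin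
  exact le_of_sq_le_sq hfin2 (by positivity)

end

end Pool.Agent.Helper97.PR
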