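import Pool.Agent.Helper97.PR.Count

/-!
# Parity-switched recurrence (MP_2a27b1_nt): the counting theorem from a certificate
-/

set_option autoImplicit false

namespace Pool.Agent.Helper97.PR

/-- the set of pairs which is counted -/
def Pr (σ : ℤ) (u : ℤ × ℤ) : Prop := u.1 % 2 = 1 ∧ u.2 % 2 = 1 ∧ IsCoprime u.1 u.2 ∧ EvP σ u

theorem coprime_of_two {x y c d : ℤ} (hx : x % 2 = 1) (h : c * x + d * y = 2) : IsCoprime x y := by
  refine ⟨1 - (x / 2) * c, -((x / 2) * d), ?_⟩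
  have h1 : x = 2 * (x / 2) + 1 := by omega
  linear_combination -(x / 2) * h + h1

theorem Pr_A {σ : ℤ} (u : ℤ × ℤ) (h : Pr σ u) : Pr σ (lin (1, -2, 1, 0) u) := by
  obtain ⟨p, q⟩ := u
  obtain ⟨h1, h2, ⟨a, b, hab⟩, h4⟩ := h
  simp only at h1 h2 hab
  have e : lin (1, -2, 1, 0) (p, q) = (p - 2 * q, p) := by
    simp only [lin, Prod.mk.injEq]
    constructor <;> ring
  rw [e]
  refine ⟨by simp only; omega, by simp only; omega, ?_, ?_⟩
  · refine coprime_of_two (c := -b) (d := 2 * a + b) (by simp only; omega) ?_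
    simp only
    linear_combination 2 * hab
  · refine evP_of_iterate (j := 1) (q := (p, q)) ?_ h4
    simp only [Function.iterate_one, T, Prod.mk.injEq, true_and]
    rw [if_pos (by omega)]
    omega

theorem inj_A (u v : ℤ × ℤ) (h : lin (1, -2, 1, 0) u = lin (1, -2, 1, 0) v) : u = v := by
  obtain ⟨p, q⟩ := u
  obtain ⟨p', q'⟩ := v
  simp only [lin, Prod.mk.injEq] at h ⊢
  omega

section
variable {t : Tr} {p : Pm}

theorem main {σ : ℤ} (T' : Tab t p) (hn : 0 < p.n)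
    (hB : ∀ u, Pr σ u → Pr σ (lin p.B u)) (h11 : Pr σ (1, 1))
    (injB : ∀ u v, Pr σ u → Pr σ v → lin p.B u = lin p.B v → u = v)
    (disj : ∀ u v, Pr σ u → Pr σ v → lin (1, -2, 1, 0) u ≠ lin p.B v) :
    ∃ c : ℝ, 0 < c ∧ ∀ R : ℕ, 1 ≤ R →
      c * (R : ℝ) ^ (2 * ((p.m : ℝ) / p.n)) ≤ ((periodicPairs σ R).ncard : ℝ) := by
  classical
  obtain ⟨M, hM1, hM⟩ := T'.Gw_le
  have hodd : ∀ u, Pr σ u → u.2 ≠ 0 ∧ u.1 ≠ 0 := by
    intro u hu
    obtain ⟨h1, h2, -, -⟩ := hu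
    constructor <;> intro h <;> omega
  have h0 := hodd (1, 1) h11
  obtain ⟨-, -, -, -, -, -, -, -, -, hG⟩ := T'.cert h0.1 h0.2 (hodd _ (hB _ h11)).1
  have hpos : 0 < Phi t p (1, 1) := by
    refine mul_pos (by exact_mod_cast hG) (Real.rpow_pos_of_pos ?_ _)
    exact_mod_cast Qp_pos h0.1
  obtain ⟨c, hc, h⟩ := count_abstract (lin (1, -2, 1, 0)) (lin p.B) (Pr σ) Pr_A hB h11
    (fun u v _ _ h => inj_A u v h) injB disj (Phi t p) Phi_nonneg hpos (ρ := 1.001) (by norm_num)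
    (fun u hu => T'.super hn (hodd u hu).1 (hodd u hu).2 (hodd _ (hB u hu)).1)
    (M := M) (s := 2 * ((p.m : ℝ) / p.n)) (by exact_mod_cast hM1)
    (fun R w hR hw hb => out_bound hM R w hR (hodd w hw).1 hb)
  refine ⟨c, hc, fun R hR => (h R hR).trans ?_⟩
  have hsub : ((box R).filter (Pr σ) : Set (ℤ × ℤ)) ⊆ periodicPairs σ R := by
    intro u hu
    rw [Finset.mem_coe, Finset.mem_filter, mem_box] at hu
    obtain ⟨⟨h1, h2⟩, -, -, h3, h4⟩ := hu
    refine ⟨h1, h2, Int.isCoprime_iff_gcd_eq_one.1 h3, fun x hx hx0 hx1 => ?_⟩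
    refine evP_sol hx ?_
    rw [hx0, hx1]
    exact h4
  have hfin : (periodicPairs σ R).Finite := by
    refine (box R).finite_toSet.subset ?_
    rintro u ⟨h1, h2, -, -⟩
    exact Finset.mem_coe.2 (mem_box.2 ⟨h1, h2⟩)
  have := Set.ncard_le_ncard hsub hfin
  rw [Set.ncard_coe_finset] at this
  exact_mod_cast this

end

/-! ### the two recurrences -/

theorem lin_one (p q : ℤ) : lin (4, -3, 2, -1) (p, q) = (4 * p - 3 * q, 2 * p - q) := by
  simp only [lin, Prod.mk.injEq]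
  constructor <;> ring

theorem lin_two (p q : ℤ) : lin (2, 3, 0, 1) (p, q) = (2 * p + 3 * q, q) := by
  have h : 0 * p + 1 * q = q := by ring
  exact Prod.ext rfl h

theorem Pr_B_one (u : ℤ × ℤ) (h : Pr 1 u) : Pr 1 (lin (4, -3, 2, -1) u) := by
  obtain ⟨p, q⟩ := u
  obtain ⟨h1, h2, ⟨a, b, hab⟩, h4⟩ := h
  simp only at h1 h2 hab
  rw [lin_one]
  refine ⟨by simp only; omega, by simp only; omega, ?_, ?_⟩
  · refine coprime_of_two (c := -a - 2 * b) (d := 3 * a + 4 * b) (by simp only; omega) ?_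
    simp only
    linear_combination 2 * hab
  · refine evP_of_iterate (j := 3) (q := (p, q)) ?_ h4
    have e1 : T 1 (4 * p - 3 * q, 2 * p - q) = (2 * p - q, q - p) := by
      simp only [T, Prod.mk.injEq, true_and]
      rw [if_pos (by omega)]
      omega
    have e2 : T 1 (2 * p - q, q - p) = (q - p, p) := by
      simp only [T, Prod.mk.injEq, true_and]
      rw [if_neg (by omega)]
      omega
    have e3 : T 1 (q - p, p) = (p, q) := by
      simp only [T, Prod.mk.injEq, true_and]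
      rw [if_neg (by omega)]
      omega
    show T 1 (T 1 (T 1 (4 * p - 3 * q, 2 * p - q))) = (p, q)
    rw [e1, e2, e3]

theorem Pr_B_two (u : ℤ × ℤ) (h : Pr (-1) u) : Pr (-1) (lin (2, 3, 0, 1) u) := by
  obtain ⟨p, q⟩ := u
  obtain ⟨h1, h2, ⟨a, b, hab⟩, h4⟩ := h
  simp only at h1 h2 hab
  rw [lin_two]
  refine ⟨by simp only; omega, by simp only; omega, ?_, ?_⟩
  · refine coprime_of_two (c := a) (d := -3 * a + 2 * b) (by simp only; omega) ?_
    simp only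
    linear_combination 2 * hab
  · refine evP_of_iterate (j := 3) (q := (p, q)) ?_ h4
    have e1 : T (-1) (2 * p + 3 * q, q) = (q, -p - q) := by
      simp only [T, Prod.mk.injEq, true_and]
      rw [if_pos (by omega)]
      omega
    have e2 : T (-1) (q, -p - q) = (-p - q, p) := by
      simp only [T, Prod.mk.injEq, true_and]
      rw [if_neg (by omega)]
      omega
    have e3 : T (-1) (-p - q, p) = (p, q) := by
      simp only [T, Prod.mk.injEq, true_and]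
      rw [if_neg (by omega)]
      omega
    show T (-1) (T (-1) (T (-1) (2 * p + 3 * q, q))) = (p, q)
    rw [e1, e2, e3]

theorem Pr_11_one : Pr 1 (1, 1) := by
  refine ⟨by norm_num, by norm_num, isCoprime_one_left, 0, 3, by norm_num, by decide⟩

theorem Pr_11_two : Pr (-1) (1, 1) := by
  refine ⟨by norm_num, by norm_num, isCoprime_one_left, 0, 4, by norm_num, by decide⟩

theorem main_one {t : Tr} {p : Pm} (T' : Tab t p) (hn : 0 < p.n) (hB : p.B = (4, -3, 2, -1)) :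
    ∃ c : ℝ, 0 < c ∧ ∀ R : ℕ, 1 ≤ R →
      c * (R : ℝ) ^ (2 * ((p.m : ℝ) / p.n)) ≤ ((periodicPairs 1 R).ncard : ℝ) := by
  refine main T' hn ?_ Pr_11_one ?_ ?_
  · rw [hB]; exact Pr_B_one
  · rw [hB]
    rintro ⟨a, b⟩ ⟨c, d⟩ - - h
    rw [lin_one, lin_one, Prod.mk.injEq] at h
    rw [Prod.mk.injEq]
    omega
  · rw [hB]
    rintro ⟨a, b⟩ ⟨c, d⟩ ⟨h1, h2, -, -⟩ ⟨h3, h4, -, -⟩ h
    rw [lin_one] at h
    simp only [lin, Prod.mk.injEq] at h h1 h2 h3 h4
    omega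

theorem main_two {t : Tr} {p : Pm} (T' : Tab t p) (hn : 0 < p.n) (hB : p.B = (2, 3, 0, 1)) :
    ∃ c : ℝ, 0 < c ∧ ∀ R : ℕ, 1 ≤ R →
      c * (R : ℝ) ^ (2 * ((p.m : ℝ) / p.n)) ≤ ((periodicPairs (-1) R).ncard : ℝ) := by
  refine main T' hn ?_ Pr_11_two ?_ ?_
  · rw [hB]; exact Pr_B_two
  · rw [hB]
    rintro ⟨a, b⟩ ⟨c, d⟩ - - h
    rw [lin_two, lin_two, Prod.mk.injEq] at h
    rw [Prod.mk.injEq]
    omega
  · rw [hB]
    rintro ⟨a, b⟩ ⟨c, d⟩ ⟨h1, h2, -, -⟩ ⟨h3, h4, -, -⟩ h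
    rw [lin_two] at h
    simp only [lin, Prod.mk.injEq] at h h1 h2 h3 h4
    omega

end Pool.Agent.Helper97.PR
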