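import Pool.Agent.Helper97.PR.Super

/-!
# Parity-switched recurrence (MP_2a27b1_nt): tables for the forward maps

Certificate for `f (A u) f (B u) ≤ κ f(u)^2`, where `f(u) = G(u) Q(u)` with a weight `G` which is constant on each cone.
The cones are half-open and cover all nonzero vectors up to the sign.
-/

set_option autoImplicit false

namespace Pool.Agent.Helper97.PR

/-- the weights from `a` on, `n` of them, are at most `g` -/
def rangeLe (t : Tr) (g : ℕ) : ℕ → ℕ → Bool
  | _, 0 => true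
  | a, n + 1 => Nat.ble (W t a) g && rangeLe t g (a + 1) n

/-- the image of cone `k` under `m`, up to the sign `e`, lies in the cones `a, ..., a + n` whose weights are `≤ g` -/
def imgF (t : Tr) (K : ℕ) (m : ℤ × ℤ × ℤ × ℤ) (k : ℕ) (e : Bool) (a n g : ℕ) : Bool :=
  let w0 := sm (sg e) (lin m (V t k))
  let w1 := sm (sg e) (lin m (V t (k + 1)))
  (decide (0 < w0.2) || (decide (w0.2 = 0) && (decide (0 < w0.1) && decide (0 < w1.2)))) &&
  (decide (0 ≤ w1.2) &&
  ((Nat.beq a 0 || (decide (0 ≤ dt (V t a) w0) && decide (0 ≤ dt (V t a) w1))) &&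
  (Nat.blt (a + n) K &&
  ((Nat.beq (a + n + 1) K ||
    (decide (dt (V t (a + n + 1)) w0 < 0) && decide (dt (V t (a + n + 1)) w1 ≤ 0))) &&
  rangeLe t g a (n + 1)))))

/-- a record of the certificate -/
structure RcF where
  eA : Bool
  aA : ℕ
  nA : ℕ
  gA : ℕ
  eB : Bool
  aB : ℕ
  nB : ℕ
  gB : ℕ
  R : ℕ

/-- parameters: number of cones, matrix of twice the second branch, `8000000 κ` -/
structure PmF where
  K : ℕ
  B : ℤ × ℤ × ℤ × ℤ
  kN : ℕ

/-- matrix of twice the first branch `(a, b) ↦ (b, (b - a)/2)` -/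
def mA : ℤ × ℤ × ℤ × ℤ := (0, 2, -1, 1)

/-- check of one cone -/
def oneF (t : Tr) (p : PmF) (k : ℕ) (r : RcF) : Bool :=
  decide (0 < dt (V t k) (V t (k + 1))) &&
  ((Nat.beq k 0 || decide (0 < (V t k).2)) &&
  (imgF t p.K mA k r.eA r.aA r.nA r.gA &&
  (imgF t p.K p.B k r.eB r.aB r.nB r.gB &&
  (formOk t p.B k r.R &&
  (Nat.ble (r.gA * r.gB * r.R) (p.kN * W t k ^ 2) &&
  Nat.ble 1 (W t k))))))

/-- check of all cones from `k` on -/
def allF (t : Tr) (p : PmF) : ℕ → List RcF → Bool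
  | k, [] => Nat.beq k p.K
  | k, r :: l => oneF t p k r && allF t p (k + 1) l

/-- the complete check -/
def chkF (t : Tr) (p : PmF) (l : List RcF) : Bool :=
  decide (V t 0 = (1, 0)) && (decide (V t p.K = (-1, 0)) && (Nat.ble 2 p.K && allF t p 0 l))

theorem rangeLe_spec (t : Tr) (g : ℕ) : ∀ (n a : ℕ), rangeLe t g a n = true →
    ∀ j, a ≤ j → j < a + n → W t j ≤ g := by
  intro n
  induction n with
  | zero => intro a _ j h1 h2; omega
  | succ n ih =>
    intro a h j h1 h2
    simp only [rangeLe, Bool.and_eq_true, Nat.ble_eq] at h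
    rcases Nat.lt_or_ge a j with h3 | h3
    · exact ih (a + 1) h.2 j h3 (by omega)
    · have : j = a := by omega
      rw [this]; exact h.1

theorem allF_spec (t : Tr) (p : PmF) : ∀ (l : List RcF) (k : ℕ), allF t p k l = true →
    ∀ j, k ≤ j → j < p.K → ∃ r, oneF t p j r = true := by
  intro l
  induction l with
  | nil =>
    intro k h j h1 h2
    simp only [allF, Nat.beq_eq] at h
    omega
  | cons r l ih =>
    intro k h j h1 h2
    simp only [allF, Bool.and_eq_true] at h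
    rcases Nat.lt_or_ge k j with h3 | h3
    · exact ih (k + 1) h.2 j h3 h2
    · have : j = k := by omega
      rw [this]; exact ⟨r, h.1⟩

/-- the half-open upper half plane -/
def Hp (w : ℤ × ℤ) : Prop := 0 < w.2 ∨ (w.2 = 0 ∧ 0 < w.1)

instance (w : ℤ × ℤ) : Decidable (Hp w) := by unfold Hp; infer_instance

/-- representative in the half-open upper half plane -/
def upF (w : ℤ × ℤ) : ℤ × ℤ := if Hp w then w else (-w.1, -w.2)

/-- the weight of a direction -/
noncomputable def Gf (t : Tr) (w : ℤ × ℤ) : ℕ := W t (idx t (upF w))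

theorem Hp_upF {w : ℤ × ℤ} (hw : w ≠ 0) : Hp (upF w) := by
  by_cases h : Hp w
  · rw [upF, if_pos h]; exact h
  · rw [upF, if_neg h]
    have h1 : ¬ (w.1 = 0 ∧ w.2 = 0) := fun h2 => hw (Prod.ext h2.1 h2.2)
    simp only [Hp] at h ⊢
    omega

section
variable {t : Tr} {p : PmF}

/-- the facts about the table used below -/
structure TabF (t : Tr) (p : PmF) : Prop where
  v0 : V t 0 = (1, 0)
  vK : V t p.K = (-1, 0)
  K2 : 2 ≤ p.K
  all : ∀ j, j < p.K → ∃ r, oneF t p j r = true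

theorem tabF_of_chk {l : List RcF} (h : chkF t p l = true) : TabF t p := by
  simp only [chkF, Bool.and_eq_true, decide_eq_true_eq, Nat.ble_eq] at h
  exact ⟨h.1, h.2.1, h.2.2.1, fun j hj => allF_spec t p l 0 h.2.2.2 j (Nat.zero_le j) hj⟩

theorem TabF.one (T : TabF t p) {k : ℕ} (hk : k < p.K) :
    0 < dt (V t k) (V t (k + 1)) ∧ (0 < k → 0 < (V t k).2) := by
  obtain ⟨r, hr⟩ := T.all k hk
  simp only [oneF, Bool.and_eq_true, decide_eq_true_eq, Bool.or_eq_true, Nat.beq_eq] at hr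
  refine ⟨hr.1, fun h => ?_⟩
  rcases hr.2.1 with h1 | h1
  · omega
  · exact h1

theorem TabF.idx_zero (T : TabF t p) {w : ℤ × ℤ} (h2 : w.2 = 0) (h1 : 0 < w.1) :
    dt (V t (0 + 1)) w < 0 ∧ idx t w = 0 := by
  have h3 : 0 < (V t 1).2 := (T.one (k := 1) (by have := T.K2; omega)).2 one_pos
  have h4 : dt (V t (0 + 1)) w < 0 := by
    show (V t (0 + 1)).1 * w.2 - (V t (0 + 1)).2 * w.1 < 0
    rw [h2, zero_add]
    have := mul_pos h3 h1
    omega
  refine ⟨h4, ?_⟩
  have h5 : idx t w ≤ 0 := Nat.sInf_le (show (0 : ℕ) ∈ {j | dt (V t (j + 1)) w < 0} from h4)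
  omega

theorem TabF.idx_mem (T : TabF t p) {w : ℤ × ℤ} (hw : Hp w) :
    dt (V t (idx t w + 1)) w < 0 ∧ idx t w < p.K := by
  have hK := T.K2
  rcases hw with hw | ⟨h2, h1⟩
  · have h1 : p.K - 1 ∈ {j | dt (V t (j + 1)) w < 0} := by
      have h2 : p.K - 1 + 1 = p.K := Nat.sub_add_cancel (by omega)
      show dt (V t (p.K - 1 + 1)) w < 0
      rw [h2, T.vK]
      simp only [dt]
      omega
    refine ⟨Nat.sInf_mem ⟨_, h1⟩, ?_⟩
    have h3 : idx t w ≤ p.K - 1 := Nat.sInf_le h1
    omega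
  · obtain ⟨h3, h4⟩ := T.idx_zero h2 h1
    rw [h4]
    exact ⟨h3, by omega⟩

theorem TabF.idx_nonneg (T : TabF t p) {w : ℤ × ℤ} (hw : Hp w) : 0 ≤ dt (V t (idx t w)) w := by
  rcases Nat.eq_zero_or_pos (idx t w) with h | h
  · rw [h, T.v0]
    simp only [dt]
    rcases hw with hw | ⟨h2, h1⟩ <;> omega
  · by_contra hlt
    push Not at hlt
    have h1 : idx t w - 1 ∈ {j | dt (V t (j + 1)) w < 0} := by
      show dt (V t (idx t w - 1 + 1)) w < 0
      rw [Nat.sub_add_cancel h]
      exact hlt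
    have h2 : idx t w ≤ idx t w - 1 := Nat.sInf_le h1
    omega

theorem TabF.idx_ge (T : TabF t p) {w : ℤ × ℤ} (hw : Hp w) {a : ℕ} (ha : a < p.K)
    (h : 0 ≤ dt (V t a) w) : a ≤ idx t w := by
  rcases hw with hw | ⟨hw2, hw1⟩
  · -- all smaller breakpoints are passed too
    have key : ∀ i, i ≤ a → 1 ≤ a - i → 0 ≤ dt (V t (a - i)) w := by
      intro i
      induction i with
      | zero => intro _ _; exact h
      | succ i ih =>
        intro h1 h2
        have h3 := ih (by omega) (by omega)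
        have h4 : a - i = a - (i + 1) + 1 := by omega
        rw [h4] at h3
        obtain ⟨h5, -⟩ := T.one (k := a - (i + 1)) (by omega)
        obtain ⟨-, h6⟩ := T.one (k := a - (i + 1) + 1) (by omega)
        obtain ⟨-, h7⟩ := T.one (k := a - (i + 1)) (by omega)
        have h8 := h6 (by omega)
        have h9 := h7 (by omega)
        have h10 := dt_id (V t (a - (i + 1))) (V t (a - (i + 1) + 1)) w
        by_contra hneg
        push Not at hneg
        have h11 : (V t (a - (i + 1) + 1)).2 * dt (V t (a - (i + 1))) w < 0 :=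
          mul_neg_of_pos_of_neg h8 hneg
        have h12 : 0 ≤ (V t (a - (i + 1))).2 * dt (V t (a - (i + 1) + 1)) w :=
          mul_nonneg h9.le h3
        have h13 : 0 < w.2 * dt (V t (a - (i + 1))) (V t (a - (i + 1) + 1)) := mul_pos hw h5
        omega
    by_contra hlt
    push Not at hlt
    have h1 := (T.idx_mem (Or.inl hw)).1
    have h2 := key (a - (idx t w + 1)) (by omega) (by omega)
    have h3 : a - (a - (idx t w + 1)) = idx t w + 1 := by omega
    rw [h3] at h2
    omega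
  · rcases Nat.eq_zero_or_pos a with ha0 | ha0
    · omega
    · exfalso
      have h1 := (T.one ha).2 ha0
      have h2 : dt (V t a) w = -((V t a).2 * w.1) := by
        show (V t a).1 * w.2 - (V t a).2 * w.1 = _
        rw [hw2]; ring
      have h3 := mul_pos h1 hw1
      omega

theorem fst_comb (m : ℤ × ℤ × ℤ × ℤ) (v w u : ℤ × ℤ) (c : ℤ) :
    dt v w * (sm c (lin m u)).1 =
      (-dt w u) * (sm c (lin m v)).1 + dt v u * (sm c (lin m w)).1 := by
  simp only [dt, sm, lin]; ring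

theorem TabF.img (T : TabF t p) {m : ℤ × ℤ × ℤ × ℤ} {u : ℤ × ℤ} (hu : Hp u)
    {e : Bool} {a n g : ℕ}
    (h : imgF t p.K m (idx t u) e a n g = true) : Gf t (lin m u) ≤ g := by
  simp only [imgF, Bool.and_eq_true, decide_eq_true_eq, Bool.or_eq_true, Nat.beq_eq,
    Nat.blt_eq] at h
  obtain ⟨h0, h1, ha, hK, hb, hr⟩ := h
  obtain ⟨hk1, hkK⟩ := T.idx_mem hu
  have hk0 := T.idx_nonneg hu
  obtain ⟨hD, -⟩ := T.one hkK
  set k := idx t u with hk
  have hβ : 0 < -dt (V t (k + 1)) u := by omega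
  set w := sm (sg e) (lin m u) with hw
  have hc2 : dt (V t k) (V t (k + 1)) * w.2 = (-dt (V t (k + 1)) u) * (sm (sg e) (lin m (V t k))).2 +
      dt (V t k) u * (sm (sg e) (lin m (V t (k + 1)))).2 :=
    snd_comb m (V t k) (V t (k + 1)) u (sg e)
  have hc1 : dt (V t k) (V t (k + 1)) * w.1 = (-dt (V t (k + 1)) u) * (sm (sg e) (lin m (V t k))).1 +
      dt (V t k) u * (sm (sg e) (lin m (V t (k + 1)))).1 :=
    fst_comb m (V t k) (V t (k + 1)) u (sg e)
  have hwH : Hp w := by
    rcases h0 with h0 | ⟨h0, h0', h0''⟩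
    · left
      have h4 := mul_pos hβ h0
      have h5 := mul_nonneg hk0 h1
      have h6 : 0 < dt (V t k) (V t (k + 1)) * w.2 := by omega
      exact (mul_pos_iff_of_pos_left hD).1 h6
    · rcases lt_or_eq_of_le hk0 with h3 | h3
      · left
        have h5 := mul_pos h3 h0''
        have h6 : 0 < dt (V t k) (V t (k + 1)) * w.2 := by
          rw [hc2, h0, mul_zero, zero_add]; exact h5
        exact (mul_pos_iff_of_pos_left hD).1 h6
      · right
        have h6 : dt (V t k) (V t (k + 1)) * w.2 = 0 := by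
          rw [hc2, h0, ← h3, mul_zero, zero_mul, zero_add]
        have h7 : 0 < dt (V t k) (V t (k + 1)) * w.1 := by
          rw [hc1, ← h3, zero_mul, add_zero]; exact mul_pos hβ h0'
        refine ⟨?_, (mul_pos_iff_of_pos_left hD).1 h7⟩
        rcases mul_eq_zero.1 h6 with h8 | h8
        · omega
        · exact h8
  have hsg : sg e = 1 ∨ sg e = -1 := by cases e <;> simp [sg]
  have hup : upF (lin m u) = w := by
    rcases hsg with h5 | h5
    · have h6 : w = lin m u := by
        rw [hw, h5]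
        simp [sm]
      rw [h6] at hwH
      rw [h6, upF, if_pos hwH]
    · have h6 : w = (-(lin m u).1, -(lin m u).2) := by
        rw [hw, h5]
        simp [sm]
      have h7 : ¬ Hp (lin m u) := by
        rw [h6] at hwH
        simp only [Hp] at hwH ⊢
        omega
      rw [h6, upF, if_neg h7]
  have hge : a ≤ idx t w := by
    rcases ha with ha | ⟨ha0, ha1⟩
    · omega
    · refine T.idx_ge hwH (by omega) ?_
      have h3 : dt (V t k) (V t (k + 1)) * dt (V t a) w = _ :=
        lin_comb m (V t k) (V t (k + 1)) u (sg e) (V t a)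
      by_contra hneg
      push Not at hneg
      have h4 : dt (V t k) (V t (k + 1)) * dt (V t a) w < 0 := mul_neg_of_pos_of_neg hD hneg
      have h5 := mul_nonneg hβ.le ha0
      have h6 := mul_nonneg hk0 ha1
      omega
  have hle : idx t w ≤ a + n := by
    rcases hb with hb | ⟨hb0, hb1⟩
    · have := (T.idx_mem hwH).2
      omega
    · refine Tab.idx_le ?_
      have h3 : dt (V t k) (V t (k + 1)) * dt (V t (a + n + 1)) w = _ :=
        lin_comb m (V t k) (V t (k + 1)) u (sg e) (V t (a + n + 1))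
      by_contra hneg
      push Not at hneg
      have h4 : 0 ≤ dt (V t k) (V t (k + 1)) * dt (V t (a + n + 1)) w := mul_nonneg hD.le hneg
      have h5 := mul_neg_of_pos_of_neg hβ hb0
      have h6 := mul_nonpos_of_nonneg_of_nonpos hk0 hb1
      omega
  rw [Gf, hup]
  exact rangeLe_spec t g (n + 1) a hr _ hge (by omega)

theorem TabF.form (T : TabF t p) {m : ℤ × ℤ × ℤ × ℤ} {u : ℤ × ℤ} (hu : Hp u) {R : ℕ}
    (h : formOk t m (idx t u) R = true) :
    1000000 * Qp (lin m u) (lin m u) ≤ R * Qp u u := by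
  simp only [formOk, Bool.and_eq_true, decide_eq_true_eq] at h
  obtain ⟨h1, h2, h3⟩ := h
  obtain ⟨hk1, hkK⟩ := T.idx_mem hu
  have hk0 := T.idx_nonneg hu
  obtain ⟨hD, -⟩ := T.one hkK
  set k := idx t u with hk
  have hβ : 0 < -dt (V t (k + 1)) u := by omega
  have e1 := Qp_comb (V t k) (V t (k + 1)) u
  have e2 := Qp_lin_comb m (V t k) (V t (k + 1)) u
  have i1 := mul_le_mul_of_nonneg_left h1 (sq_nonneg (-dt (V t (k + 1)) u))
  have i2 := mul_le_mul_of_nonneg_left h2 (mul_nonneg hβ.le hk0)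
  have i3 := mul_le_mul_of_nonneg_left h3 (sq_nonneg (dt (V t k) u))
  have hD2 : 0 < dt (V t k) (V t (k + 1)) ^ 2 := pow_pos hD 2
  have i4 : dt (V t k) (V t (k + 1)) ^ 2 * (1000000 * Qp (lin m u) (lin m u)) ≤
      dt (V t k) (V t (k + 1)) ^ 2 * (R * Qp u u) := by
    linear_combination i1 + 2 * i2 + i3 + 1000000 * e2 - (R : ℤ) * e1
  exact le_of_mul_le_mul_left i4 hD2

theorem upF_neg (w : ℤ × ℤ) (hw : w ≠ 0) : upF (-w.1, -w.2) = upF w := by
  have h1 : ¬ (w.1 = 0 ∧ w.2 = 0) := fun h2 => hw (Prod.ext h2.1 h2.2)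
  simp only [upF]
  by_cases h : Hp w
  · have h2 : ¬ Hp (-w.1, -w.2) := by
      simp only [Hp] at h ⊢
      omega
    rw [if_pos h, if_neg h2]
    simp
  · have h2 : Hp (-w.1, -w.2) := by
      simp only [Hp] at h ⊢
      omega
    rw [if_neg h, if_pos h2]

theorem Gf_neg (w : ℤ × ℤ) : Gf t (-w.1, -w.2) = Gf t w := by
  by_cases h : w = 0
  · rw [h]; rfl
  · rw [Gf, Gf, upF_neg w h]

/-- the integer form of the certificate -/
theorem TabF.cert (T : TabF t p) {u : ℤ × ℤ} (hu : u ≠ 0) :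
    (Gf t (lin mA u) * Gf t (lin p.B u) : ℤ) * (1000000 * Qp (lin p.B u) (lin p.B u)) ≤
      p.kN * Gf t u ^ 2 * Qp u u ∧ 1 ≤ Gf t u := by
  have main : ∀ v : ℤ × ℤ, Hp v → (Gf t (lin mA v) * Gf t (lin p.B v) : ℤ) *
      (1000000 * Qp (lin p.B v) (lin p.B v)) ≤ p.kN * Gf t v ^ 2 * Qp v v ∧ 1 ≤ Gf t v := by
    intro v hv
    obtain ⟨r, hr⟩ := T.all _ (T.idx_mem hv).2
    simp only [oneF, Bool.and_eq_true, decide_eq_true_eq, Nat.ble_eq] at hr
    obtain ⟨-, -, hA, hB, hF, hg, hW⟩ := hr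
    have hup : upF v = v := by rw [upF, if_pos hv]
    have e1 := T.img hv hA
    have e2 := T.img hv hB
    have e3 := T.form hv hF
    have e4 : r.gA * r.gB * r.R ≤ p.kN * Gf t v ^ 2 := by
      rw [Gf, hup]; exact hg
    refine ⟨?_, by rw [Gf, hup]; exact hW⟩
    have h1 : (0 : ℤ) ≤ Gf t (lin mA v) * Gf t (lin p.B v) := by positivity
    have hQ : 0 ≤ Qp v v := by
      have h2 : 4 * Qp v v = 2 * (2 * v.1 - v.2) ^ 2 + 14 * v.2 ^ 2 := by
        simp only [Qp]; ring
      nlinarith [sq_nonneg (2 * v.1 - v.2), sq_nonneg v.2]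
    calc (Gf t (lin mA v) * Gf t (lin p.B v) : ℤ) * (1000000 * Qp (lin p.B v) (lin p.B v))
        ≤ (Gf t (lin mA v) * Gf t (lin p.B v) : ℤ) * (r.R * Qp v v) :=
          mul_le_mul_of_nonneg_left e3 h1
      _ ≤ (r.gA * r.gB : ℤ) * (r.R * Qp v v) := by
          refine mul_le_mul_of_nonneg_right ?_ (by positivity)
          exact_mod_cast Nat.mul_le_mul e1 e2
      _ = (r.gA * r.gB * r.R : ℤ) * Qp v v := by ring
      _ ≤ (p.kN * Gf t v ^ 2 : ℤ) * Qp v v := by
          refine mul_le_mul_of_nonneg_right ?_ hQ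
          exact_mod_cast e4
  by_cases h : Hp u
  · exact main u h
  · have h2 : Hp (-u.1, -u.2) := by
      have := Hp_upF hu
      rwa [upF, if_neg h] at this
    have h3 := main _ h2
    rw [lin_neg, lin_neg, Gf_neg, Gf_neg, Gf_neg, Qp_neg, Qp_neg] at h3
    exact h3

theorem TabF.Gf_le (T : TabF t p) : ∃ M : ℕ, 1 ≤ M ∧ ∀ w : ℤ × ℤ, w ≠ 0 → Gf t w ≤ M := by
  refine ⟨(Finset.range p.K).sup (W t) + 1, Nat.le_add_left _ _, fun w hw => ?_⟩
  have h2 := (T.idx_mem (Hp_upF hw)).2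
  exact (Finset.le_sup (f := W t) (Finset.mem_range.2 h2)).trans (Nat.le_succ _)

end

end Pool.Agent.Helper97.PR
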