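import Pool.Agent.Helper97.PR.Words

/-!
# Parity-switched recurrence (MP_2a27b1_nt): words of integer pairs and the second moment
-/

set_option autoImplicit false

namespace Pool.Agent.Helper97.PR

/-- matrix of twice the second branch -/
def mB (σ : ℤ) : ℤ × ℤ × ℤ × ℤ := if σ = 1 then (-1, 3, -2, 4) else (1, -3, 0, 2)

/-- the accelerated map on pairs of odd integers -/
def Fs (σ : ℤ) (u : ℤ × ℤ) : ℤ × ℤ :=
  if (u.2 - u.1) / 2 % 2 = 1 then (u.2, (u.2 - u.1) / 2)
  else if σ = 1 then (u.2 + (u.2 - u.1) / 2, u.2 + 2 * ((u.2 - u.1) / 2))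
  else (-u.2 - (u.2 - u.1) / 2, u.2)

/-- which branch is used -/
def letr (u : ℤ × ℤ) : Bool := decide ((u.2 - u.1) / 2 % 2 = 1)

/-- both entries odd -/
def Od (u : ℤ × ℤ) : Prop := u.1 % 2 = 1 ∧ u.2 % 2 = 1

/-- the word of length `n` -/
def wrd (σ : ℤ) : ℕ → ℤ × ℤ → List Bool
  | 0, _ => []
  | n + 1, u => letr u :: wrd σ n (Fs σ u)

theorem wrd_mem (σ : ℤ) : ∀ (n : ℕ) (u : ℤ × ℤ), wrd σ n u ∈ words n := by
  intro n
  induction n with
  | zero => intro u; simp [wrd, words]
  | succ n ih => intro u; exact cons_mem_words (ih _)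

theorem Fs_od {σ : ℤ} {u : ℤ × ℤ} (h : Od u) : Od (Fs σ u) := by
  obtain ⟨h1, h2⟩ := h
  rw [Fs]
  split_ifs with h3 h4
  · exact ⟨h2, h3⟩
  · constructor
    · show (u.2 + (u.2 - u.1) / 2) % 2 = 1
      omega
    · show (u.2 + 2 * ((u.2 - u.1) / 2)) % 2 = 1
      omega
  · constructor
    · show (-u.2 - (u.2 - u.1) / 2) % 2 = 1
      omega
    · exact h2

theorem Fs_lin {σ : ℤ} {u : ℤ × ℤ} (h : Od u) :
    (2 : ℤ) • Fs σ u = lin (bif letr u then mA else mB σ) u := by
  obtain ⟨h1, h2⟩ := h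
  obtain ⟨a, b⟩ := u
  simp only at h1 h2
  by_cases h3 : (b - a) / 2 % 2 = 1
  · have e1 : letr (a, b) = true := by simp only [letr]; exact decide_eq_true h3
    have e2 : Fs σ (a, b) = (b, (b - a) / 2) := by simp only [Fs]; rw [if_pos h3]
    rw [e1, e2]
    simp only [cond_true, mA, lin, Prod.smul_mk, smul_eq_mul, Prod.mk.injEq]
    constructor
    · ring
    · omega
  · have e1 : letr (a, b) = false := by simp only [letr]; exact decide_eq_false h3
    rw [e1, cond_false]
    by_cases h4 : σ = 1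
    · have e2 : Fs σ (a, b) = (b + (b - a) / 2, b + 2 * ((b - a) / 2)) := by
        simp only [Fs]; rw [if_neg h3, if_pos h4]
      rw [e2, mB, if_pos h4]
      simp only [lin, Prod.smul_mk, smul_eq_mul, Prod.mk.injEq]
      constructor <;> omega
    · have e2 : Fs σ (a, b) = (-b - (b - a) / 2, b) := by
        simp only [Fs]; rw [if_neg h3, if_neg h4]
      rw [e2, mB, if_neg h4]
      simp only [lin, Prod.smul_mk, smul_eq_mul, Prod.mk.injEq]
      constructor <;> omega

theorem dt_lin {σ : ℤ} (b : Bool) (u v : ℤ × ℤ) :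
    dt (lin (bif b then mA else mB σ) u) (lin (bif b then mA else mB σ) v) = 2 * dt u v := by
  cases b
  · rw [cond_false, mB]
    split_ifs
    · simp only [dt, lin]; ring
    · simp only [dt, lin]; ring
  · simp only [cond_true, dt, lin, mA]; ring

theorem dt_smul (c : ℤ) (u v : ℤ × ℤ) : dt (c • u) (c • v) = c ^ 2 * dt u v := by
  simp only [dt, Prod.smul_fst, Prod.smul_snd, smul_eq_mul]; ring

theorem dt_Fs {σ : ℤ} {u v : ℤ × ℤ} (hu : Od u) (hv : Od v) (h : letr u = letr v) :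
    dt u v = 2 * dt (Fs σ u) (Fs σ v) := by
  have h1 := Fs_lin (σ := σ) hu
  have h2 := Fs_lin (σ := σ) hv
  rw [← h] at h2
  have h3 := dt_lin (σ := σ) (letr u) u v
  rw [← h1, ← h2, dt_smul] at h3
  linarith

/-- pairs with the same word have a determinant divisible by a high power of two -/
theorem dt_wrd {σ : ℤ} : ∀ (n : ℕ) (u v : ℤ × ℤ), Od u → Od v → wrd σ n u = wrd σ n v →
    dt u v = 2 ^ n * dt ((Fs σ)^[n] u) ((Fs σ)^[n] v) := by
  intro n
  induction n with
  | zero => intro u v _ _ _; simp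
  | succ n ih =>
    intro u v hu hv h
    rw [wrd, wrd, List.cons.injEq] at h
    rw [dt_Fs hu hv h.1, ih _ _ (Fs_od hu) (Fs_od hv) h.2, Function.iterate_succ_apply,
      Function.iterate_succ_apply]
    ring

/-- the word describes the iterate -/
theorem act_wrd {σ : ℤ} : ∀ (n : ℕ) (u : ℤ × ℤ), Od u →
    act mA (mB σ) (wrd σ n u) u = (2 : ℤ) ^ n • (Fs σ)^[n] u := by
  intro n
  induction n with
  | zero => intro u _; simp [wrd, act]
  | succ n ih =>
    intro u hu
    have h1 : act mA (mB σ) (wrd σ (n + 1) u) u =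
        act mA (mB σ) (wrd σ n (Fs σ u)) (lin (bif letr u then mA else mB σ) u) := by
      rw [wrd]
      cases letr u <;> rfl
    rw [h1, ← Fs_lin hu, act_smul, ih _ (Fs_od hu), Function.iterate_succ_apply, smul_smul]
    congr 1
    ring

/-! ### the second moment -/

/-- maximum norm -/
def mx (u : ℤ × ℤ) : ℤ := max |u.1| |u.2|

theorem fiber_le {u : ℤ × ℤ} (hu : IsCoprime u.1 u.2) (h0 : 0 < mx u) (D : ℤ) (S : Finset (ℤ × ℤ))
    (hS : ∀ v ∈ S, mx v ≤ mx u ∧ dt u v = D) : S.card ≤ 5 := by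
  classical
  rcases S.eq_empty_or_nonempty with h | ⟨v0, hv0⟩
  · rw [h]; simp
  · have hsub : S ⊆ (Finset.Icc (-2 : ℤ) 2).image fun s => (v0.1 + s * u.1, v0.2 + s * u.2) := by
      intro v hv
      obtain ⟨h1, h2⟩ := hS v hv
      obtain ⟨h3, h4⟩ := hS v0 hv0
      obtain ⟨a, b, hab⟩ := hu
      have h5 : u.1 * (v.2 - v0.2) = u.2 * (v.1 - v0.1) := by
        simp only [dt] at h2 h4
        linarith
      set s := a * (v.1 - v0.1) + b * (v.2 - v0.2) with hs
      have e1 : v.1 - v0.1 = s * u.1 := by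
        rw [hs]
        linear_combination (-(v.1 - v0.1)) * hab - b * h5
      have e2 : v.2 - v0.2 = s * u.2 := by
        rw [hs]
        linear_combination (-(v.2 - v0.2)) * hab + a * h5
      have k1 : |v.1 - v0.1| ≤ 2 * mx u := by
        have i1 : |v.1| ≤ mx u := (le_max_left _ _).trans h1
        have i2 : |v0.1| ≤ mx u := (le_max_left _ _).trans h3
        have i3 := abs_sub v.1 v0.1
        linarith
      have k2 : |v.2 - v0.2| ≤ 2 * mx u := by
        have i1 : |v.2| ≤ mx u := (le_max_right _ _).trans h1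
        have i2 : |v0.2| ≤ mx u := (le_max_right _ _).trans h3
        have i3 := abs_sub v.2 v0.2
        linarith
      rw [e1, abs_mul] at k1
      rw [e2, abs_mul] at k2
      have k3 : |s| * mx u ≤ 2 * mx u := by
        rcases max_choice |u.1| |u.2| with h | h
        · rw [mx, h]; rw [mx, h] at k1; exact k1
        · rw [mx, h]; rw [mx, h] at k2; exact k2
      have k4 : |s| ≤ 2 := le_of_mul_le_mul_right k3 h0
      rw [Finset.mem_image]
      refine ⟨s, Finset.mem_Icc.2 (abs_le.1 k4), ?_⟩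
      refine Prod.ext ?_ ?_
      · show v0.1 + s * u.1 = v.1
        linarith
      · show v0.2 + s * u.2 = v.2
        linarith
    refine (Finset.card_le_card hsub).trans (Finset.card_image_le.trans ?_)
    simp

/-- for a fixed pair few pairs have the same word -/
theorem same_word_le {σ : ℤ} {n R : ℕ} (hn : R ^ 2 ≤ 2 ^ n) {u : ℤ × ℤ} (hu : IsCoprime u.1 u.2)
    (hod : Od u) (hR : mx u ≤ R) (S : Finset (ℤ × ℤ))
    (hS : ∀ v ∈ S, Od v ∧ mx v ≤ mx u ∧ wrd σ n u = wrd σ n v) : S.card ≤ 25 := by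
  classical
  have h0 : 0 < mx u := by
    have h1 : u.1 ≠ 0 := by
      intro h
      have := hod.1
      omega
    exact lt_of_lt_of_le (abs_pos.2 h1) (le_max_left _ _)
  have hsub : S ⊆ (Finset.Icc (-2 : ℤ) 2).biUnion fun j => S.filter fun v => dt u v = j * 2 ^ n := by
    intro v hv
    obtain ⟨h1, h2, h3⟩ := hS v hv
    have h4 := dt_wrd n u v hod h1 h3
    set j := dt ((Fs σ)^[n] u) ((Fs σ)^[n] v) with hj
    rw [Finset.mem_biUnion]
    have h5 : |dt u v| ≤ 2 * (R : ℤ) ^ 2 := by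
      have i1 : |u.1| ≤ R := (le_max_left _ _).trans hR
      have i2 : |u.2| ≤ R := (le_max_right _ _).trans hR
      have i3 : |v.1| ≤ R := (le_max_left _ _).trans (h2.trans hR)
      have i4 : |v.2| ≤ R := (le_max_right _ _).trans (h2.trans hR)
      have i5 : |u.1 * v.2| ≤ (R : ℤ) * R := by
        rw [abs_mul]; exact mul_le_mul i1 i4 (abs_nonneg _) (Int.natCast_nonneg R)
      have i6 : |u.2 * v.1| ≤ (R : ℤ) * R := by
        rw [abs_mul]; exact mul_le_mul i2 i3 (abs_nonneg _) (Int.natCast_nonneg R)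
      have i7 := abs_sub (u.1 * v.2) (u.2 * v.1)
      rw [dt]
      nlinarith
    have h6 : (0 : ℤ) < 2 ^ n := by positivity
    have h7 : (R : ℤ) ^ 2 ≤ 2 ^ n := by exact_mod_cast hn
    have h8 : |j| ≤ 2 := by
      rw [h4, abs_mul, abs_of_pos h6] at h5
      have h9 : 2 ^ n * |j| ≤ 2 ^ n * 2 := by linarith
      exact le_of_mul_le_mul_left h9 h6
    refine ⟨j, Finset.mem_Icc.2 (abs_le.1 h8), ?_⟩
    rw [Finset.mem_filter]
    refine ⟨hv, ?_⟩
    rw [h4]; ring
  refine (Finset.card_le_card hsub).trans (Finset.card_biUnion_le.trans ?_)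
  refine (Finset.sum_le_card_nsmul _ _ 5 ?_).trans ?_
  · intro j _
    refine fiber_le hu h0 (j * 2 ^ n) _ ?_
    intro v hv
    rw [Finset.mem_filter] at hv
    exact ⟨(hS v hv.1).2.1, hv.2⟩
  · simp

open Classical in
/-- the pairs which are counted -/
noncomputable def Sf (R : ℕ) : Finset (ℤ × ℤ) := (box R).filter fun u => Od u ∧ IsCoprime u.1 u.2

open Classical in
theorem mem_Sf {R : ℕ} {u : ℤ × ℤ} : u ∈ Sf R ↔ mx u ≤ R ∧ Od u ∧ IsCoprime u.1 u.2 := by
  rw [Sf, Finset.mem_filter, mem_box, mx, max_le_iff]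

open Classical in
theorem card_Sf (R : ℕ) : (Sf R).card ≤ (2 * R + 1) ^ 2 := by
  refine (Finset.card_le_card (Finset.filter_subset _ _)).trans ?_
  rw [box, Finset.card_product, Int.card_Icc]
  have : ((R : ℤ) + 1 - -(R : ℤ)).toNat = 2 * R + 1 := by omega
  rw [this, sq]

open Classical in
/-- the second moment -/
theorem second_moment {σ : ℤ} {n R : ℕ} (hn : R ^ 2 ≤ 2 ^ n) :
    ((Sf R ×ˢ Sf R).filter fun q => wrd σ n q.1 = wrd σ n q.2).card ≤ 50 * (2 * R + 1) ^ 2 := by
  set P := (Sf R ×ˢ Sf R).filter fun q => wrd σ n q.1 = wrd σ n q.2 with hP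
  set P1 := P.filter fun q => mx q.2 ≤ mx q.1 with hP1
  have h1 : P1.card ≤ 25 * (Sf R).card := by
    have hsub : P1 ⊆ (Sf R).biUnion fun u =>
        ((Sf R).filter fun v => mx v ≤ mx u ∧ wrd σ n u = wrd σ n v).image fun v => (u, v) := by
      intro q hq
      rw [hP1, Finset.mem_filter, hP, Finset.mem_filter, Finset.mem_product] at hq
      obtain ⟨⟨⟨h1, h2⟩, h3⟩, h4⟩ := hq
      rw [Finset.mem_biUnion]
      refine ⟨q.1, h1, ?_⟩
      rw [Finset.mem_image]
      exact ⟨q.2, Finset.mem_filter.2 ⟨h2, h4, h3⟩, rfl⟩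
    refine (Finset.card_le_card hsub).trans (Finset.card_biUnion_le.trans ?_)
    refine (Finset.sum_le_card_nsmul _ _ 25 ?_).trans ?_
    · intro u hu
      obtain ⟨h2, h3, h4⟩ := mem_Sf.1 hu
      refine Finset.card_image_le.trans (same_word_le (σ := σ) hn h4 h3 h2 _ ?_)
      intro v hv
      rw [Finset.mem_filter] at hv
      exact ⟨(mem_Sf.1 hv.1).2.1, hv.2⟩
    · rw [smul_eq_mul, mul_comm]
  have h2 : P.card ≤ P1.card + P1.card := by
    have hsub : P ⊆ P1 ∪ P1.image Prod.swap := by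
      intro q hq
      rw [Finset.mem_union]
      rcases le_total (mx q.2) (mx q.1) with h | h
      · exact Or.inl (Finset.mem_filter.2 ⟨hq, h⟩)
      · right
        rw [Finset.mem_image]
        refine ⟨q.swap, Finset.mem_filter.2 ⟨?_, h⟩, Prod.swap_swap q⟩
        rw [hP, Finset.mem_filter, Finset.mem_product] at hq ⊢
        exact ⟨⟨hq.1.2, hq.1.1⟩, hq.2.symm⟩
    refine (Finset.card_le_card hsub).trans ((Finset.card_union_le _ _).trans ?_)
    exact Nat.add_le_add_left Finset.card_image_le _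
  have h3 := card_Sf R
  omega

open Classical in
/-- Cauchy-Schwarz -/
theorem card_sq_le {σ : ℤ} {n R : ℕ} (hn : R ^ 2 ≤ 2 ^ n) (E : Finset (ℤ × ℤ)) (hE : E ⊆ Sf R)
    (B : Finset (List Bool)) (hB : ∀ u ∈ E, wrd σ n u ∈ B) :
    (E.card : ℝ) ^ 2 ≤ B.card * (50 * (2 * R + 1) ^ 2) := by
  have h1 : E.card = ∑ w ∈ B, (E.filter fun u => wrd σ n u = w).card :=
    Finset.card_eq_sum_card_fiberwise hB
  have h2 : ∑ w ∈ B, ((E.filter fun u => wrd σ n u = w).card) ^ 2 ≤
      ((Sf R ×ˢ Sf R).filter fun q => wrd σ n q.1 = wrd σ n q.2).card := by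
    have h3 : ∀ w ∈ B, ((E.filter fun u => wrd σ n u = w).card) ^ 2 =
        ((E.filter fun u => wrd σ n u = w) ×ˢ (E.filter fun u => wrd σ n u = w)).card := by
      intro w _
      rw [Finset.card_product, sq]
    rw [Finset.sum_congr rfl h3, ← Finset.card_biUnion]
    · refine Finset.card_le_card ?_
      intro q hq
      rw [Finset.mem_biUnion] at hq
      obtain ⟨w, -, hw⟩ := hq
      rw [Finset.mem_product, Finset.mem_filter, Finset.mem_filter] at hw
      rw [Finset.mem_filter, Finset.mem_product]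
      exact ⟨⟨hE hw.1.1, hE hw.2.1⟩, hw.1.2.trans hw.2.2.symm⟩
    · intro w _ w' _ hne
      show Disjoint _ _
      rw [Finset.disjoint_left]
      intro q hq hq'
      rw [Finset.mem_product, Finset.mem_filter, Finset.mem_filter] at hq hq'
      exact hne (hq.1.2.symm.trans hq'.1.2)
  have h3 := second_moment (σ := σ) hn
  have h4 : ((∑ w ∈ B, ((E.filter fun u => wrd σ n u = w).card : ℝ))) ^ 2 ≤
      B.card * ∑ w ∈ B, ((E.filter fun u => wrd σ n u = w).card : ℝ) ^ 2 :=
    sq_sum_le_card_mul_sum_sq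
  have h5 : (E.card : ℝ) = ∑ w ∈ B, ((E.filter fun u => wrd σ n u = w).card : ℝ) := by
    rw [h1]; push_cast; rfl
  rw [h5]
  refine h4.trans (mul_le_mul_of_nonneg_left ?_ (Nat.cast_nonneg _))
  have h6 : ∑ w ∈ B, ((E.filter fun u => wrd σ n u = w).card) ^ 2 ≤ 50 * (2 * R + 1) ^ 2 := h2.trans h3
  exact_mod_cast h6

end Pool.Agent.Helper97.PR
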