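import Pool.Agent.Helper97.PR.Cone

/-!
# Parity-switched recurrence (MP_2a27b1_nt): the certificate gives a superharmonic function
-/

set_option autoImplicit false

namespace Pool.Agent.Helper97.PR

theorem rangeOk_spec (t : Tr) (g : ℕ) : ∀ (n a : ℕ), rangeOk t g a n = true →
    ∀ j, a ≤ j → j < a + n → g ≤ W t j := by
  intro n
  induction n with
  | zero => intro a _ j h1 h2; omega
  | succ n ih =>
    intro a h j h1 h2
    simp only [rangeOk, Bool.and_eq_true, Nat.ble_eq] at h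
    rcases Nat.lt_or_ge a j with h3 | h3
    · exact ih (a + 1) h.2 j h3 (by omega)
    · have : j = a := by omega
      rw [this]; exact h.1

theorem allOk_spec (t : Tr) (p : Pm) : ∀ (l : List Rc) (k : ℕ), allOk t p k l = true →
    ∀ j, k ≤ j → j < p.K → ∃ r, oneOk t p j r = true := by
  intro l
  induction l with
  | nil =>
    intro k h j h1 h2
    simp only [allOk, Nat.beq_eq] at h
    omega
  | cons r l ih =>
    intro k h j h1 h2
    simp only [allOk, Bool.and_eq_true] at h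
    rcases Nat.lt_or_ge k j with h3 | h3
    · exact ih (k + 1) h.2 j h3 h2
    · have : j = k := by omega
      rw [this]; exact ⟨r, h.1⟩

/-- the cone of a vector in the upper half plane -/
noncomputable def idx (t : Tr) (w : ℤ × ℤ) : ℕ := sInf {j | dt (V t (j + 1)) w < 0}

/-- representative in the upper half plane -/
def up (w : ℤ × ℤ) : ℤ × ℤ := if 0 < w.2 then w else (-w.1, -w.2)

/-- the weight of a direction -/
noncomputable def Gw (t : Tr) (w : ℤ × ℤ) : ℕ := W t (idx t (up w))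

theorem dt_id (a b w : ℤ × ℤ) : b.2 * dt a w = a.2 * dt b w + w.2 * dt a b := by
  simp only [dt]; ring

section
variable {t : Tr} {p : Pm}

/-- the facts about the table used below -/
structure Tab (t : Tr) (p : Pm) : Prop where
  v0 : V t 0 = (1, 0)
  vK : V t p.K = (-1, 0)
  K1 : 1 ≤ p.K
  cA : p.cA ^ p.n * 2 ^ p.m ≤ 10 ^ (4 * p.n)
  all : ∀ j, j < p.K → ∃ r, oneOk t p j r = true

theorem tab_of_chk {l : List Rc} (h : chk t p l = true) : Tab t p := by
  simp only [chk, Bool.and_eq_true, decide_eq_true_eq, Nat.ble_eq] at h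
  exact ⟨h.1, h.2.1, h.2.2.1, h.2.2.2.1, fun j hj => allOk_spec t p l 0 h.2.2.2.2 j (Nat.zero_le j) hj⟩

theorem Tab.one (T : Tab t p) {k : ℕ} (hk : k < p.K) :
    0 < dt (V t k) (V t (k + 1)) ∧ (0 < k → 0 < (V t k).2) := by
  obtain ⟨r, hr⟩ := T.all k hk
  simp only [oneOk, Bool.and_eq_true, decide_eq_true_eq, Bool.or_eq_true, Nat.beq_eq] at hr
  refine ⟨hr.1, fun h => ?_⟩
  rcases hr.2.1 with h1 | h1
  · omega
  · exact h1

theorem Tab.idx_mem (T : Tab t p) {w : ℤ × ℤ} (hw : 0 < w.2) :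
    dt (V t (idx t w + 1)) w < 0 ∧ idx t w < p.K := by
  have h1 : p.K - 1 ∈ {j | dt (V t (j + 1)) w < 0} := by
    have h2 : p.K - 1 + 1 = p.K := Nat.sub_add_cancel T.K1
    show dt (V t (p.K - 1 + 1)) w < 0
    rw [h2, T.vK]
    simp only [dt]
    omega
  refine ⟨Nat.sInf_mem ⟨_, h1⟩, ?_⟩
  have h3 : idx t w ≤ p.K - 1 := Nat.sInf_le h1
  have := T.K1
  omega

theorem Tab.idx_nonneg (T : Tab t p) {w : ℤ × ℤ} (hw : 0 < w.2) : 0 ≤ dt (V t (idx t w)) w := by
  rcases Nat.eq_zero_or_pos (idx t w) with h | h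
  · rw [h, T.v0]
    simp only [dt]
    omega
  · by_contra hlt
    push Not at hlt
    have h1 : idx t w - 1 ∈ {j | dt (V t (j + 1)) w < 0} := by
      show dt (V t (idx t w - 1 + 1)) w < 0
      rw [Nat.sub_add_cancel h]
      exact hlt
    have h2 : idx t w ≤ idx t w - 1 := Nat.sInf_le h1
    omega

theorem Tab.idx_le {w : ℤ × ℤ} {b : ℕ} (h : dt (V t (b + 1)) w < 0) :
    idx t w ≤ b := Nat.sInf_le h

theorem Tab.idx_ge (T : Tab t p) {w : ℤ × ℤ} (hw : 0 < w.2) {a : ℕ} (ha : a < p.K)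
    (h : 0 ≤ dt (V t a) w) : a ≤ idx t w := by
  -- all smaller breakpoints are passed too
  have key : ∀ i, i ≤ a → 1 ≤ a - i → 0 ≤ dt (V t (a - i)) w := by
    intro i
    induction i with
    | zero => intro _ _; exact h
    | succ i ih =>
      intro h1 h2
      have h3 := ih (by omega) (by omega)
      have h4 : a - i = a - (i + 1) + 1 := by omega
      rw [h4] at h3
      obtain ⟨h5, -⟩ := T.one (k := a - (i + 1)) (by omega)
      obtain ⟨-, h6⟩ := T.one (k := a - (i + 1) + 1) (by omega)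
      obtain ⟨-, h7⟩ := T.one (k := a - (i + 1)) (by omega)
      have h8 := h6 (by omega)
      have h9 := h7 (by omega)
      have h10 := dt_id (V t (a - (i + 1))) (V t (a - (i + 1) + 1)) w
      by_contra hneg
      push Not at hneg
      have h11 : (V t (a - (i + 1) + 1)).2 * dt (V t (a - (i + 1))) w < 0 :=
        mul_neg_of_pos_of_neg h8 hneg
      have h12 : 0 ≤ (V t (a - (i + 1))).2 * dt (V t (a - (i + 1) + 1)) w :=
        mul_nonneg h9.le h3
      have h13 : 0 < w.2 * dt (V t (a - (i + 1))) (V t (a - (i + 1) + 1)) := mul_pos hw h5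
      omega
  by_contra hlt
  push Not at hlt
  have h1 := (T.idx_mem hw).1
  have h2 := key (a - (idx t w + 1)) (by omega) (by omega)
  have h3 : a - (a - (idx t w + 1)) = idx t w + 1 := by omega
  rw [h3] at h2
  omega

theorem lin_comb (m : ℤ × ℤ × ℤ × ℤ) (v w u : ℤ × ℤ) (c : ℤ) (x : ℤ × ℤ) :
    dt v w * dt x (sm c (lin m u)) =
      (-dt w u) * dt x (sm c (lin m v)) + dt v u * dt x (sm c (lin m w)) := by
  simp only [dt, sm, lin]; ring

theorem snd_comb (m : ℤ × ℤ × ℤ × ℤ) (v w u : ℤ × ℤ) (c : ℤ) :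
    dt v w * (sm c (lin m u)).2 =
      (-dt w u) * (sm c (lin m v)).2 + dt v u * (sm c (lin m w)).2 := by
  simp only [dt, sm, lin]; ring

theorem Qp_comb (v w u : ℤ × ℤ) :
    dt v w ^ 2 * Qp u u = (-dt w u) ^ 2 * Qp v v + 2 * ((-dt w u) * dt v u) * Qp v w +
      dt v u ^ 2 * Qp w w := by
  simp only [dt, Qp]; ring

theorem Qp_lin_comb (m : ℤ × ℤ × ℤ × ℤ) (v w u : ℤ × ℤ) :
    dt v w ^ 2 * Qp (lin m u) (lin m u) = (-dt w u) ^ 2 * Qp (lin m v) (lin m v) +
      2 * ((-dt w u) * dt v u) * Qp (lin m v) (lin m w) + dt v u ^ 2 * Qp (lin m w) (lin m w) := by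
  simp only [dt, Qp, lin]; ring

theorem Tab.img (T : Tab t p) {m : ℤ × ℤ × ℤ × ℤ} {u : ℤ × ℤ} (hu : 0 < u.2)
    (hne : (lin m u).2 ≠ 0) {e : Bool} {a n g : ℕ}
    (h : imgOk t p.K m (idx t u) e a n g = true) : g ≤ Gw t (lin m u) := by
  simp only [imgOk, Bool.and_eq_true, decide_eq_true_eq, Bool.or_eq_true, Nat.beq_eq,
    Nat.blt_eq] at h
  obtain ⟨h0, h1, ha, hK, hb, hr⟩ := h
  obtain ⟨hk1, hkK⟩ := T.idx_mem hu
  have hk0 := T.idx_nonneg hu
  obtain ⟨hD, -⟩ := T.one hkK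
  set k := idx t u with hk
  have hβ : 0 < -dt (V t (k + 1)) u := by omega
  set w := sm (sg e) (lin m u) with hw
  have hc2 : dt (V t k) (V t (k + 1)) * w.2 = (-dt (V t (k + 1)) u) * (sm (sg e) (lin m (V t k))).2 +
      dt (V t k) u * (sm (sg e) (lin m (V t (k + 1)))).2 :=
    snd_comb m (V t k) (V t (k + 1)) u (sg e)
  have hw2n : 0 ≤ w.2 := by
    by_contra hneg
    push Not at hneg
    have h3 : dt (V t k) (V t (k + 1)) * w.2 < 0 := mul_neg_of_pos_of_neg hD hneg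
    have h4 := mul_nonneg hβ.le h0
    have h5 := mul_nonneg hk0 h1
    omega
  have hsg : sg e = 1 ∨ sg e = -1 := by cases e <;> simp [sg]
  have hw2 : 0 < w.2 := by
    rcases lt_or_eq_of_le hw2n with h3 | h3
    · exact h3
    · exfalso
      apply hne
      have h4 : sg e * (lin m u).2 = 0 := h3.symm
      rcases hsg with h5 | h5 <;> rw [h5] at h4 <;> omega
  have hup : up (lin m u) = w := by
    rcases hsg with h5 | h5
    · have h6 : w = lin m u := by
        rw [hw, h5]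
        simp [sm]
      rw [h6] at hw2
      rw [h6, up, if_pos hw2]
    · have h6 : w = (-(lin m u).1, -(lin m u).2) := by
        rw [hw, h5]
        simp [sm]
      have h7 : ¬ 0 < (lin m u).2 := by
        rw [h6] at hw2
        simp only at hw2
        omega
      rw [h6, up, if_neg h7]
  have hge : a ≤ idx t w := by
    rcases ha with ha | ⟨ha0, ha1⟩
    · omega
    · refine T.idx_ge hw2 (by omega) ?_
      have h3 : dt (V t k) (V t (k + 1)) * dt (V t a) w = _ :=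
        lin_comb m (V t k) (V t (k + 1)) u (sg e) (V t a)
      by_contra hneg
      push Not at hneg
      have h4 : dt (V t k) (V t (k + 1)) * dt (V t a) w < 0 := mul_neg_of_pos_of_neg hD hneg
      have h5 := mul_nonneg hβ.le ha0
      have h6 := mul_nonneg hk0 ha1
      omega
  have hle : idx t w ≤ a + n := by
    rcases hb with hb | ⟨hb0, hb1⟩
    · have := (T.idx_mem hw2).2
      omega
    · refine Tab.idx_le ?_
      have h3 : dt (V t k) (V t (k + 1)) * dt (V t (a + n + 1)) w = _ :=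
        lin_comb m (V t k) (V t (k + 1)) u (sg e) (V t (a + n + 1))
      by_contra hneg
      push Not at hneg
      have h4 : 0 ≤ dt (V t k) (V t (k + 1)) * dt (V t (a + n + 1)) w := mul_nonneg hD.le hneg
      have h5 := mul_neg_of_pos_of_neg hβ hb0
      have h6 := mul_nonpos_of_nonneg_of_nonpos hk0 hb1
      omega
  rw [Gw, hup]
  exact rangeOk_spec t g (n + 1) a hr _ hge (by omega)

theorem Tab.form (T : Tab t p) {m : ℤ × ℤ × ℤ × ℤ} {u : ℤ × ℤ} (hu : 0 < u.2) {R : ℕ}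
    (h : formOk t m (idx t u) R = true) :
    1000000 * Qp (lin m u) (lin m u) ≤ R * Qp u u := by
  simp only [formOk, Bool.and_eq_true, decide_eq_true_eq] at h
  obtain ⟨h1, h2, h3⟩ := h
  obtain ⟨hk1, hkK⟩ := T.idx_mem hu
  have hk0 := T.idx_nonneg hu
  obtain ⟨hD, -⟩ := T.one hkK
  set k := idx t u with hk
  have hβ : 0 < -dt (V t (k + 1)) u := by omega
  have e1 := Qp_comb (V t k) (V t (k + 1)) u
  have e2 := Qp_lin_comb m (V t k) (V t (k + 1)) u
  have i1 := mul_le_mul_of_nonneg_left h1 (sq_nonneg (-dt (V t (k + 1)) u))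
  have i2 := mul_le_mul_of_nonneg_left h2 (mul_nonneg hβ.le hk0)
  have i3 := mul_le_mul_of_nonneg_left h3 (sq_nonneg (dt (V t k) u))
  have hD2 : 0 < dt (V t k) (V t (k + 1)) ^ 2 := pow_pos hD 2
  have i4 : dt (V t k) (V t (k + 1)) ^ 2 * (1000000 * Qp (lin m u) (lin m u)) ≤
      dt (V t k) (V t (k + 1)) ^ 2 * (R * Qp u u) := by
    linear_combination i1 + 2 * i2 + i3 + 1000000 * e2 - (R : ℤ) * e1
  exact le_of_mul_le_mul_left i4 hD2

/-- the integer form of the certificate at a vector of the upper half plane -/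
theorem Tab.up_cert (T : Tab t p) {u : ℤ × ℤ} (hu : 0 < u.2) (h1 : u.1 ≠ 0)
    (h2 : (lin p.B u).2 ≠ 0) :
    ∃ gA gB R c : ℕ, gA ≤ Gw t (lin (1, -2, 1, 0) u) ∧ gB ≤ Gw t (lin p.B u) ∧
      1000000 * Qp (lin p.B u) (lin p.B u) ≤ R * Qp u u ∧
      c ^ p.n * R ^ p.m ≤ 10 ^ (4 * p.n + 6 * p.m) ∧
      10010000 * Gw t u ≤ 1000 * (p.cA * gA + c * gB) ∧ 1 ≤ Gw t u := by
  obtain ⟨r, hr⟩ := T.all _ (T.idx_mem hu).2
  simp only [oneOk, Bool.and_eq_true, decide_eq_true_eq, Nat.ble_eq] at hr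
  obtain ⟨-, -, hA, hB, hF, hc, hg, hW⟩ := hr
  have hup : up u = u := by rw [up, if_pos hu]
  refine ⟨r.gA, r.gB, r.R, r.c, T.img hu ?_ hA, T.img hu h2 hB, T.form hu hF, hc, ?_, ?_⟩
  · simpa [lin] using h1
  · rw [Gw, hup]; exact hg
  · rw [Gw, hup]; exact hW

theorem up_neg (w : ℤ × ℤ) (hw : w.2 ≠ 0) : up (-w.1, -w.2) = up w := by
  simp only [up]
  by_cases h : 0 < w.2
  · rw [if_pos h, if_neg (by omega)]
    simp
  · rw [if_neg h, if_pos (by omega)]

theorem lin_neg (m : ℤ × ℤ × ℤ × ℤ) (u : ℤ × ℤ) :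
    lin m (-u.1, -u.2) = (-(lin m u).1, -(lin m u).2) := by
  simp only [lin, Prod.mk.injEq]
  constructor <;> ring

theorem Qp_neg (u : ℤ × ℤ) : Qp (-u.1, -u.2) (-u.1, -u.2) = Qp u u := by
  simp only [Qp]; ring

/-- the integer form of the certificate -/
theorem Tab.cert (T : Tab t p) {u : ℤ × ℤ} (h0 : u.2 ≠ 0) (h1 : u.1 ≠ 0)
    (h2 : (lin p.B u).2 ≠ 0) :
    ∃ gA gB R c : ℕ, gA ≤ Gw t (lin (1, -2, 1, 0) u) ∧ gB ≤ Gw t (lin p.B u) ∧
      1000000 * Qp (lin p.B u) (lin p.B u) ≤ R * Qp u u ∧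
      c ^ p.n * R ^ p.m ≤ 10 ^ (4 * p.n + 6 * p.m) ∧
      10010000 * Gw t u ≤ 1000 * (p.cA * gA + c * gB) ∧ 1 ≤ Gw t u := by
  by_cases hu : 0 < u.2
  · exact T.up_cert hu h1 h2
  · have hu' : 0 < ((-u.1, -u.2) : ℤ × ℤ).2 := by
      show 0 < -u.2
      omega
    have h1' : ((-u.1, -u.2) : ℤ × ℤ).1 ≠ 0 := by
      show -u.1 ≠ 0
      omega
    have h2' : (lin p.B (-u.1, -u.2)).2 ≠ 0 := by
      rw [lin_neg]
      show -(lin p.B u).2 ≠ 0
      omega
    obtain ⟨gA, gB, R, c, e1, e2, e3, e4, e5, e6⟩ := T.up_cert hu' h1' h2'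
    have hG0 : Gw t (-u.1, -u.2) = Gw t u := by
      rw [Gw, Gw, up_neg u h0]
    have hGB : Gw t (lin p.B (-u.1, -u.2)) = Gw t (lin p.B u) := by
      rw [Gw, Gw, lin_neg, up_neg _ h2]
    have hGA : Gw t (lin (1, -2, 1, 0) (-u.1, -u.2)) = Gw t (lin (1, -2, 1, 0) u) := by
      rw [Gw, Gw, lin_neg, up_neg]
      simpa [lin] using h1
    rw [hGA] at e1
    rw [hGB] at e2
    rw [hG0] at e5 e6
    rw [lin_neg, Qp_neg, Qp_neg] at e3
    exact ⟨gA, gB, R, c, e1, e2, e3, e4, e5, e6⟩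

end

theorem Qp_pos {u : ℤ × ℤ} (h : u.2 ≠ 0) : 0 < Qp u u := by
  have h1 : 0 < u.2 ^ 2 := by positivity
  have h2 : 4 * Qp u u = 2 * (2 * u.1 - u.2) ^ 2 + 14 * u.2 ^ 2 := by
    simp only [Qp]; ring
  nlinarith [sq_nonneg (2 * u.1 - u.2)]

/-- real powers: from `Y ≤ r X` to `Y^(-α) ≥ c X^(-α)` -/
theorem rpow_bound {X Y r c : ℝ} {m n : ℕ} (hn : 0 < n) (hX : 0 < X) (hY : 0 < Y) (hr : 0 < r)
    (_hc : 0 ≤ c) (h : Y ≤ r * X) (hcr : c ^ n * r ^ m ≤ 1) :
    c * X ^ (-((m : ℝ) / n)) ≤ Y ^ (-((m : ℝ) / n)) := by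
  have hn' : (n : ℝ) ≠ 0 := by positivity
  have h1 : (r * X) ^ (-((m : ℝ) / n)) ≤ Y ^ (-((m : ℝ) / n)) := by
    refine Real.rpow_le_rpow_of_nonpos hY h ?_
    have : 0 ≤ (m : ℝ) / n := by positivity
    linarith
  refine le_trans ?_ h1
  rw [Real.mul_rpow hr.le hX.le]
  refine mul_le_mul_of_nonneg_right ?_ (Real.rpow_nonneg hX.le _)
  -- c ≤ r ^ (-(m/n))
  have h2 : (r ^ (-((m : ℝ) / n))) ^ n = (r ^ m)⁻¹ := by
    rw [← Real.rpow_natCast, ← Real.rpow_mul hr.le]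
    have h3 : -((m : ℝ) / n) * (n : ℝ) = -(m : ℝ) := by
      field_simp
    rw [h3, Real.rpow_neg hr.le, Real.rpow_natCast]
  have h4 : c ^ n ≤ (r ^ (-((m : ℝ) / n))) ^ n := by
    rw [h2]
    have h5 : 0 < r ^ m := pow_pos hr m
    calc c ^ n = (c ^ n * r ^ m) * (r ^ m)⁻¹ := by
          rw [mul_assoc, mul_inv_cancel₀ h5.ne', mul_one]
      _ ≤ 1 * (r ^ m)⁻¹ := mul_le_mul_of_nonneg_right hcr (inv_nonneg.2 h5.le)
      _ = (r ^ m)⁻¹ := one_mul _
  exact le_of_pow_le_pow_left₀ hn.ne' (Real.rpow_nonneg hr.le _) h4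

end Pool.Agent.Helper97.PR
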