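import Pool.Agent.Helper97.PR.Fwd
import Pool.Agent.Helper97.PR.Count

/-!
# Parity-switched recurrence (MP_2a27b1_nt): words of branches and exponential moments
-/

set_option autoImplicit false

namespace Pool.Agent.Helper97.PR

/-- an exponent with exponential moment below two -/
theorem exists_mu {x y : ℝ} (hx : 0 < x) (hy : 0 < y) (hxy : x * y < 1) :
    ∃ μ : ℝ, 0 < μ ∧ μ ≤ 1 ∧ x ^ μ + y ^ μ < 2 := by
  have hs : Real.log x + Real.log y < 0 := by
    rw [← Real.log_mul hx.ne' hy.ne']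
    exact Real.log_neg (mul_pos hx hy) hxy
  set a := Real.log x with ha
  set b := Real.log y with hb
  have hA : 0 < |a| + |b| + 1 := by positivity
  set c := -(a + b) with hc
  have hc0 : 0 < c := by linarith
  have hS : 0 < a ^ 2 + b ^ 2 + 1 := by positivity
  set μ := min (1 / (|a| + |b| + 1)) (c / (2 * (a ^ 2 + b ^ 2 + 1))) with hμ
  have h0 : 0 < μ := lt_min (by positivity) (by positivity)
  have h1 : μ ≤ 1 / (|a| + |b| + 1) := min_le_left _ _
  have h2 : μ ≤ c / (2 * (a ^ 2 + b ^ 2 + 1)) := min_le_right _ _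
  have h3 : μ * (|a| + |b| + 1) ≤ 1 := by
    rw [le_div_iff₀ hA] at h1; exact h1
  have h4 : μ * (2 * (a ^ 2 + b ^ 2 + 1)) ≤ c := by
    rw [le_div_iff₀ (by positivity)] at h2; exact h2
  have hμ1 : μ ≤ 1 := by nlinarith [abs_nonneg a, abs_nonneg b]
  have key : ∀ z L : ℝ, 0 < z → Real.log z = L → |L| ≤ |a| + |b| + 1 →
      z ^ μ ≤ 1 + μ * L + (μ * L) ^ 2 := by
    intro z L hz hL hLa
    rw [Real.rpow_def_of_pos hz, hL]
    have h5 : |L * μ| ≤ 1 := by
      rw [abs_mul, abs_of_pos h0]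
      nlinarith [abs_nonneg L]
    have h6 := Real.abs_exp_sub_one_sub_id_le h5
    have h7 := (abs_le.1 h6).2
    nlinarith [h7]
  have k1 := key x a hx rfl (by linarith [abs_nonneg b])
  have k2 := key y b hy rfl (by linarith [abs_nonneg a])
  refine ⟨μ, h0, hμ1, ?_⟩
  have h8 : μ * (a + b) + μ ^ 2 * (a ^ 2 + b ^ 2) < 0 := by
    have h9 : μ * (μ * (2 * (a ^ 2 + b ^ 2 + 1))) ≤ μ * c := mul_le_mul_of_nonneg_left h4 h0.le
    have h10 : 0 < μ * μ := mul_pos h0 h0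
    have h11 : 0 < μ * c := mul_pos h0 hc0
    nlinarith [sq_nonneg a, sq_nonneg b]
  nlinarith [k1, k2, h8]

/-- two numbers with bounded size and product -/
theorem add_le_of_prod {a b z q : ℝ} (hz : 0 < z) (ha : a ≤ z) (hb : b ≤ z) (hab : a * b ≤ q) :
    a + b ≤ z + q / z := by
  rw [← sub_nonneg]
  have h : 0 ≤ (z - a) * (z - b) := mul_nonneg (sub_nonneg.2 ha) (sub_nonneg.2 hb)
  have h2 : z * (z + q / z - (a + b)) = z * z + q - z * (a + b) := by
    field_simp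
  have h3 : 0 ≤ z * (z + q / z - (a + b)) := by rw [h2]; nlinarith
  exact nonneg_of_mul_nonneg_right h3 hz

/-- action of a word: the scaled branches one after the other -/
def act (m₁ m₂ : ℤ × ℤ × ℤ × ℤ) : List Bool → ℤ × ℤ → ℤ × ℤ
  | [], u => u
  | true :: w, u => act m₁ m₂ w (lin m₁ u)
  | false :: w, u => act m₁ m₂ w (lin m₂ u)

/-- the words of length `n` -/
def words : ℕ → Finset (List Bool)
  | 0 => {[]}
  | n + 1 => (words n).map ⟨List.cons true, fun _ _ h => (List.cons.inj h).2⟩ ∪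
      (words n).map ⟨List.cons false, fun _ _ h => (List.cons.inj h).2⟩

theorem sum_words_succ (n : ℕ) (h : List Bool → ℝ) : ∑ w ∈ words (n + 1), h w =
    ∑ w ∈ words n, h (true :: w) + ∑ w ∈ words n, h (false :: w) := by
  rw [words, Finset.sum_union, Finset.sum_map, Finset.sum_map]
  · rfl
  · rw [Finset.disjoint_left]
    intro w h1 h2
    rw [Finset.mem_map] at h1 h2
    obtain ⟨a, -, rfl⟩ := h1
    obtain ⟨b, -, h3⟩ := h2
    simp at h3

theorem cons_mem_words {n : ℕ} {b : Bool} {w : List Bool} (h : w ∈ words n) :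
    b :: w ∈ words (n + 1) := by
  rw [words, Finset.mem_union, Finset.mem_map, Finset.mem_map]
  cases b
  · exact Or.inr ⟨w, h, rfl⟩
  · exact Or.inl ⟨w, h, rfl⟩

/-- moments of the products -/
theorem sum_words_le {m₁ m₂ : ℤ × ℤ × ℤ × ℤ} {g : ℤ × ℤ → ℝ} {r : ℝ} (hr : 0 ≤ r)
    (h : ∀ u, g (lin m₁ u) + g (lin m₂ u) ≤ r * g u) :
    ∀ (n : ℕ) (u : ℤ × ℤ), ∑ w ∈ words n, g (act m₁ m₂ w u) ≤ r ^ n * g u := by
  intro n
  induction n with
  | zero => intro u; simp [words, act]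
  | succ n ih =>
    intro u
    rw [sum_words_succ]
    have h1 := ih (lin m₁ u)
    have h2 := ih (lin m₂ u)
    have h3 : r ^ n * (g (lin m₁ u) + g (lin m₂ u)) ≤ r ^ n * (r * g u) :=
      mul_le_mul_of_nonneg_left (h u) (pow_nonneg hr n)
    calc ∑ w ∈ words n, g (act m₁ m₂ (true :: w) u) + ∑ w ∈ words n, g (act m₁ m₂ (false :: w) u)
        ≤ r ^ n * g (lin m₁ u) + r ^ n * g (lin m₂ u) := add_le_add h1 h2
      _ = r ^ n * (g (lin m₁ u) + g (lin m₂ u)) := by ring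
      _ ≤ r ^ n * (r * g u) := h3
      _ = r ^ (n + 1) * g u := by ring

theorem lin_add (m : ℤ × ℤ × ℤ × ℤ) (u v : ℤ × ℤ) : lin m (u + v) = lin m u + lin m v := by
  simp only [lin, Prod.fst_add, Prod.snd_add, Prod.mk_add_mk, Prod.mk.injEq]
  constructor <;> ring

theorem lin_smul (m : ℤ × ℤ × ℤ × ℤ) (c : ℤ) (u : ℤ × ℤ) : lin m (c • u) = c • lin m u := by
  simp only [lin, Prod.smul_fst, Prod.smul_snd, smul_eq_mul, Prod.smul_mk, Prod.mk.injEq]
  constructor <;> ring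

theorem act_add (m₁ m₂ : ℤ × ℤ × ℤ × ℤ) : ∀ (w : List Bool) (u v : ℤ × ℤ),
    act m₁ m₂ w (u + v) = act m₁ m₂ w u + act m₁ m₂ w v := by
  intro w
  induction w with
  | nil => intro u v; rfl
  | cons b w ih =>
    intro u v
    cases b
    · show act m₁ m₂ w (lin m₂ (u + v)) = act m₁ m₂ w (lin m₂ u) + act m₁ m₂ w (lin m₂ v)
      rw [lin_add, ih]
    · show act m₁ m₂ w (lin m₁ (u + v)) = act m₁ m₂ w (lin m₁ u) + act m₁ m₂ w (lin m₁ v)
      rw [lin_add, ih]

theorem act_smul (m₁ m₂ : ℤ × ℤ × ℤ × ℤ) : ∀ (w : List Bool) (c : ℤ) (u : ℤ × ℤ),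
    act m₁ m₂ w (c • u) = c • act m₁ m₂ w u := by
  intro w
  induction w with
  | nil => intro c u; rfl
  | cons b w ih =>
    intro c u
    cases b
    · show act m₁ m₂ w (lin m₂ (c • u)) = c • act m₁ m₂ w (lin m₂ u)
      rw [lin_smul, ih]
    · show act m₁ m₂ w (lin m₁ (c • u)) = c • act m₁ m₂ w (lin m₁ u)
      rw [lin_smul, ih]

section
variable {t : Tr} {p : PmF}

/-- the weighted form -/
noncomputable def fG (t : Tr) (u : ℤ × ℤ) : ℝ := (Gf t u : ℝ) * ((Qp u u : ℤ) : ℝ)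

theorem fG_nonneg (t : Tr) (u : ℤ × ℤ) : 0 ≤ fG t u :=
  mul_nonneg (Nat.cast_nonneg _) (by exact_mod_cast Qp_nonneg u)

theorem fG_zero (t : Tr) : fG t (0, 0) = 0 := by
  simp [fG, Qp]

theorem Qp_pos' {u : ℤ × ℤ} (h : u ≠ 0) : 0 < Qp u u := by
  have h2 : 4 * Qp u u = 2 * (2 * u.1 - u.2) ^ 2 + 14 * u.2 ^ 2 := by
    simp only [Qp]; ring
  by_cases h3 : u.2 = 0
  · have h4 : u.1 ≠ 0 := fun h5 => h (Prod.ext h5 h3)
    have h5 : 0 < u.1 ^ 2 := by positivity
    rw [h3] at h2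
    nlinarith
  · exact Qp_pos h3

theorem Qp_mA (u : ℤ × ℤ) : Qp (lin mA u) (lin mA u) = 2 * Qp u u := by
  simp only [Qp, lin, mA]; ring

theorem lin_zero (m : ℤ × ℤ × ℤ × ℤ) : lin m (0, 0) = (0, 0) := by
  simp [lin]

/-- the moment inequality for one step -/
theorem TabF.moment (T : TabF t p) {c : ℝ} (hc : (p.kN : ℝ) / 8000000 * c ^ 2 < 1) (hc0 : 1 ≤ c) :
    ∃ μ r : ℝ, 0 < μ ∧ 1 ≤ r ∧ r * c ^ μ < 2 ∧
      ∀ u : ℤ × ℤ, fG t (lin mA u) ^ μ + fG t (lin p.B u) ^ μ ≤ 4 ^ μ * r * fG t u ^ μ := by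
  obtain ⟨M, hM1, hM⟩ := T.Gf_le
  -- the kernel certificate implies kN > 0 is not needed: use max
  set κ : ℝ := max ((p.kN : ℝ) / 8000000) (1 / (2 * c ^ 2)) with hκ
  have hc2 : 0 < c ^ 2 := by positivity
  have hκ0 : 0 < κ := lt_of_lt_of_le (by positivity) (le_max_right _ _)
  have hκ1 : κ * c ^ 2 < 1 := by
    rcases max_choice ((p.kN : ℝ) / 8000000) (1 / (2 * c ^ 2)) with h | h
    · rw [hκ, h]; exact hc
    · rw [hκ, h]
      rw [div_mul_eq_mul_div, div_lt_one (by positivity)]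
      linarith
  -- bound of the second form
  obtain ⟨N, hN⟩ : ∃ N : ℕ, ∀ u : ℤ × ℤ, Qp (lin p.B u) (lin p.B u) ≤ N * Qp u u := by
    obtain ⟨a, b, c', d⟩ := p.B
    refine ⟨((20 * (|a| + |b| + |c'| + |d|) ^ 2).toNat), fun u => ?_⟩
    obtain ⟨x, y⟩ := u
    have h0 : 0 ≤ 20 * (|a| + |b| + |c'| + |d|) ^ 2 := by positivity
    rw [Int.toNat_of_nonneg h0]
    have hQ1 : x ^ 2 + y ^ 2 ≤ Qp (x, y) (x, y) := by
      simp only [Qp]
      nlinarith [sq_nonneg (x - y), sq_nonneg y, sq_nonneg x]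
    have hQ2 : ∀ z w : ℤ, Qp (z, w) (z, w) ≤ 5 * (z ^ 2 + w ^ 2) := by
      intro z w
      simp only [Qp]
      nlinarith [sq_nonneg (z + w), sq_nonneg z, sq_nonneg w]
    have h1 : ∀ s r' : ℤ, (s * x + r' * y) ^ 2 ≤ (|s| + |r'|) ^ 2 * (x ^ 2 + y ^ 2) := by
      intro s r'
      have h2 : |s * x + r' * y| ≤ (|s| + |r'|) * (|x| + |y|) := by
        refine (abs_add_le _ _).trans ?_
        rw [abs_mul, abs_mul]
        nlinarith [mul_nonneg (abs_nonneg s) (abs_nonneg y), mul_nonneg (abs_nonneg r') (abs_nonneg x)]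
      have h3 : (s * x + r' * y) ^ 2 ≤ (s ^ 2 + r' ^ 2) * (x ^ 2 + y ^ 2) := by
        nlinarith [sq_nonneg (s * y - r' * x)]
      have h4 : s ^ 2 + r' ^ 2 ≤ (|s| + |r'|) ^ 2 := by
        nlinarith [sq_abs s, sq_abs r', mul_nonneg (abs_nonneg s) (abs_nonneg r')]
      exact h3.trans (mul_le_mul_of_nonneg_right h4 (by positivity))
    have h5 := h1 a b
    have h6 := h1 c' d
    have h7 : (|a| + |b|) ^ 2 + (|c'| + |d|) ^ 2 ≤ (|a| + |b| + |c'| + |d|) ^ 2 := by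
      nlinarith [mul_nonneg (add_nonneg (abs_nonneg a) (abs_nonneg b))
        (add_nonneg (abs_nonneg c') (abs_nonneg d))]
    have h8 := hQ2 (a * x + b * y) (c' * x + d * y)
    have hxy : 0 ≤ x ^ 2 + y ^ 2 := by positivity
    have hsq : 0 ≤ (|a| + |b| + |c'| + |d|) ^ 2 := by positivity
    calc Qp (lin (a, b, c', d) (x, y)) (lin (a, b, c', d) (x, y))
        ≤ 5 * ((a * x + b * y) ^ 2 + (c' * x + d * y) ^ 2) := h8
      _ ≤ 5 * (((|a| + |b|) ^ 2 + (|c'| + |d|) ^ 2) * (x ^ 2 + y ^ 2)) := by linarith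
      _ ≤ 5 * ((|a| + |b| + |c'| + |d|) ^ 2 * (x ^ 2 + y ^ 2)) := by
          have := mul_le_mul_of_nonneg_right h7 hxy
          linarith
      _ ≤ 20 * (|a| + |b| + |c'| + |d|) ^ 2 * Qp (x, y) (x, y) := by
          have h9 := mul_le_mul_of_nonneg_left hQ1 hsq
          have h10 := mul_nonneg hsq hxy
          linarith
  -- ratio bound
  set m : ℝ := max 1 ((M : ℝ) * (N + 2)) with hm
  have hm1 : 1 ≤ m := le_max_left _ _
  have hm0 : 0 < m := by linarith
  have hratio : ∀ u : ℤ × ℤ, fG t (lin mA u) ≤ 4 * m * fG t u ∧ fG t (lin p.B u) ≤ 4 * m * fG t u := by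
    intro u
    by_cases hu : u = 0
    · rw [hu]
      show fG t (lin mA (0, 0)) ≤ 4 * m * fG t (0, 0) ∧ fG t (lin p.B (0, 0)) ≤ 4 * m * fG t (0, 0)
      rw [lin_zero, lin_zero, fG_zero]
      simp
    · have h1 := (T.cert hu).2
      have hQ : (0 : ℝ) < ((Qp u u : ℤ) : ℝ) := by exact_mod_cast Qp_pos' hu
      have hG1 : (1 : ℝ) ≤ (Gf t u : ℝ) := by exact_mod_cast h1
      have hGle : ∀ v : ℤ × ℤ, fG t v ≤ M * ((Qp v v : ℤ) : ℝ) := by
        intro v
        by_cases hv : v = 0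
        · rw [hv]
          show fG t (0, 0) ≤ M * ((Qp (0, 0) (0, 0) : ℤ) : ℝ)
          rw [fG_zero]
          simp [Qp]
        · exact mul_le_mul_of_nonneg_right (by exact_mod_cast hM v hv)
            (by exact_mod_cast Qp_nonneg v)
      have hfu : ((Qp u u : ℤ) : ℝ) ≤ fG t u := by
        rw [fG]
        nlinarith
      have hMr : (1 : ℝ) ≤ M := by exact_mod_cast hM1
      have hmge : (M : ℝ) * (N + 2) ≤ m := le_max_right _ _
      have hNr : (0 : ℝ) ≤ N := Nat.cast_nonneg N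
      constructor
      · have h2 := hGle (lin mA u)
        rw [Qp_mA] at h2
        push_cast at h2
        have h3 : (M : ℝ) * 2 ≤ m := by nlinarith
        have h4 : (M : ℝ) * 2 * ((Qp u u : ℤ) : ℝ) ≤ m * fG t u :=
          mul_le_mul h3 hfu hQ.le hm0.le
        have h5 : 0 ≤ m * fG t u := mul_nonneg hm0.le (fG_nonneg t u)
        linarith
      · have h2 := hGle (lin p.B u)
        have h3 : ((Qp (lin p.B u) (lin p.B u) : ℤ) : ℝ) ≤ N * ((Qp u u : ℤ) : ℝ) := by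
          exact_mod_cast hN u
        have h4 : (M : ℝ) * ((Qp (lin p.B u) (lin p.B u) : ℤ) : ℝ) ≤ M * (N * ((Qp u u : ℤ) : ℝ)) :=
          mul_le_mul_of_nonneg_left h3 (by linarith)
        have h5 : (M : ℝ) * N ≤ m := by nlinarith
        have h6 : (M : ℝ) * N * ((Qp u u : ℤ) : ℝ) ≤ m * fG t u :=
          mul_le_mul h5 hfu hQ.le hm0.le
        have h7 : 0 ≤ m * fG t u := mul_nonneg hm0.le (fG_nonneg t u)
        linarith
  have hprod : ∀ u : ℤ × ℤ, fG t (lin mA u) * fG t (lin p.B u) ≤ 16 * κ * fG t u ^ 2 := by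
    intro u
    by_cases hu : u = 0
    · rw [hu]
      show fG t (lin mA (0, 0)) * fG t (lin p.B (0, 0)) ≤ 16 * κ * fG t (0, 0) ^ 2
      rw [lin_zero, lin_zero, fG_zero]
      simp
    · have h1 := (T.cert hu).1
      have h2 : ((Gf t (lin mA u) : ℝ) * (Gf t (lin p.B u) : ℝ)) *
          (1000000 * ((Qp (lin p.B u) (lin p.B u) : ℤ) : ℝ)) ≤
          (p.kN : ℝ) * (Gf t u : ℝ) ^ 2 * ((Qp u u : ℤ) : ℝ) := by exact_mod_cast h1
      have hQ : (0 : ℝ) < ((Qp u u : ℤ) : ℝ) := by exact_mod_cast Qp_pos' hu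
      have h3 : fG t (lin mA u) * fG t (lin p.B u) =
          2 / 1000000 * ((Qp u u : ℤ) : ℝ) * (((Gf t (lin mA u) : ℝ) * (Gf t (lin p.B u) : ℝ)) *
          (1000000 * ((Qp (lin p.B u) (lin p.B u) : ℤ) : ℝ))) := by
        rw [fG, fG, Qp_mA]
        push_cast
        ring
      rw [h3]
      have h4 : 2 / 1000000 * ((Qp u u : ℤ) : ℝ) * (((Gf t (lin mA u) : ℝ) *
          (Gf t (lin p.B u) : ℝ)) * (1000000 * ((Qp (lin p.B u) (lin p.B u) : ℤ) : ℝ))) ≤
          2 / 1000000 * ((Qp u u : ℤ) : ℝ) *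
          ((p.kN : ℝ) * (Gf t u : ℝ) ^ 2 * ((Qp u u : ℤ) : ℝ)) :=
        mul_le_mul_of_nonneg_left h2 (by positivity)
      refine h4.trans ?_
      have h5 : 2 / 1000000 * ((Qp u u : ℤ) : ℝ) *
          ((p.kN : ℝ) * (Gf t u : ℝ) ^ 2 * ((Qp u u : ℤ) : ℝ)) =
          16 * ((p.kN : ℝ) / 8000000) * fG t u ^ 2 := by
        rw [fG]; ring
      rw [h5]
      refine mul_le_mul_of_nonneg_right ?_ (by positivity)
      exact mul_le_mul_of_nonneg_left (le_max_left _ _) (by norm_num)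
  -- the exponent
  obtain ⟨μ, hμ0, -, hμ⟩ := exists_mu (x := m * c) (y := κ / m * c) (by positivity) (by positivity)
    (by
      have : m * c * (κ / m * c) = κ * c ^ 2 := by field_simp
      rw [this]; exact hκ1)
  refine ⟨μ, m ^ μ + (κ / m) ^ μ, hμ0, ?_, ?_, ?_⟩
  · have h1 : 1 ≤ m ^ μ := Real.one_le_rpow hm1 hμ0.le
    have h2 : 0 ≤ (κ / m) ^ μ := Real.rpow_nonneg (by positivity) _
    linarith
  · rw [Real.mul_rpow hm0.le (by linarith), Real.mul_rpow (by positivity) (by linarith)] at hμ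
    linarith
  · intro u
    have hf := fG_nonneg t u
    have hX := fG_nonneg t (lin mA u)
    have hY := fG_nonneg t (lin p.B u)
    obtain ⟨hr1, hr2⟩ := hratio u
    have hp := hprod u
    by_cases hf0 : fG t u = 0
    · rw [hf0] at hr1 hr2 ⊢
      have h1 : fG t (lin mA u) = 0 := le_antisymm (by linarith) hX
      have h2 : fG t (lin p.B u) = 0 := le_antisymm (by linarith) hY
      rw [h1, h2, Real.zero_rpow hμ0.ne']
      simp
    · have hfp : 0 < fG t u := lt_of_le_of_ne hf (Ne.symm hf0)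
      have h4f : (0 : ℝ) < (4 * fG t u) ^ μ := Real.rpow_pos_of_pos (by positivity) _
      have hz : (0 : ℝ) < (4 * m * fG t u) ^ μ := Real.rpow_pos_of_pos (by positivity) _
      have e1 : fG t (lin mA u) ^ μ ≤ (4 * m * fG t u) ^ μ := Real.rpow_le_rpow hX hr1 hμ0.le
      have e2 : fG t (lin p.B u) ^ μ ≤ (4 * m * fG t u) ^ μ := Real.rpow_le_rpow hY hr2 hμ0.le
      have e3 : fG t (lin mA u) ^ μ * fG t (lin p.B u) ^ μ ≤ (16 * κ * fG t u ^ 2) ^ μ := by
        rw [← Real.mul_rpow hX hY]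
        exact Real.rpow_le_rpow (mul_nonneg hX hY) hp hμ0.le
      have e4 := add_le_of_prod hz e1 e2 e3
      refine e4.trans (le_of_eq ?_)
      have e5 : (4 * m * fG t u) ^ μ = m ^ μ * (4 * fG t u) ^ μ := by
        rw [← Real.mul_rpow hm0.le (by positivity)]
        congr 1; ring
      have e6 : (16 * κ * fG t u ^ 2) ^ μ / (4 * m * fG t u) ^ μ = (κ / m) ^ μ * (4 * fG t u) ^ μ := by
        rw [← Real.div_rpow (by positivity) (by positivity), ← Real.mul_rpow (by positivity)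
          (by positivity)]
        congr 1
        field_simp
        ring
      rw [e6, e5, Real.mul_rpow (by norm_num) hf]
      ring

end

end Pool.Agent.Helper97.PR
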